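import Mathlib
import Pool.Agent.H852.QP.Gen
import Pool.Agent.H932R3.Proj

set_option autoImplicit false

/-!
# Curves through very general points: from Taylor coefficients to the affine plane
-/

namespace Pool.Agent.TH176.Nag

open MvPolynomial Pool.Agent.H932R5 Pool.Agent.H519R3.AC

section Taylor

variable {K : Type*} [Field K]

/-- Substituting `(0, t Y)` picks out the coefficients of the monomials without `X 0`. -/
theorem coeff_sub0 {n : ℕ} (t : K) (G : MvPolynomial (Fin (n + 1)) K) (s : Fin n →₀ ℕ) :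
    coeff s (aeval (Fin.cons 0 (fun j => C t * X j) : Fin (n + 1) → MvPolynomial (Fin n) K) G) =
      t ^ (∑ j, s j) * coeff (Finsupp.cons 0 s) G := by
  classical
  induction G using MvPolynomial.induction_on' with
  | monomial u a =>
    rw [aeval_monomial, Finsupp.prod_fintype _ _ (fun i => pow_zero _), Fin.prod_univ_succ]
    simp only [Fin.cons_zero, Fin.cons_succ, mul_pow, Finset.prod_mul_distrib]
    rw [coeff_monomial]
    by_cases hu : u 0 = 0
    · have h1 : (∏ j : Fin n, (X j : MvPolynomial (Fin n) K) ^ u j.succ) =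
          monomial u.tail 1 := by
        rw [monomial_eq, C_1, one_mul, Finsupp.prod_fintype _ _ (fun i => pow_zero _)]
        exact Finset.prod_congr rfl fun j _ => by rw [Finsupp.tail_apply]
      have h2 : (∏ j : Fin n, (C t : MvPolynomial (Fin n) K) ^ u j.succ) =
          C (t ^ (∑ j : Fin n, u j.succ)) := by
        rw [Finset.prod_pow_eq_pow_sum, C_pow]
      rw [hu, pow_zero, one_mul, h1, h2, algebraMap_eq, C_mul_monomial, C_mul_monomial,
        coeff_monomial]
      by_cases h3 : u = Finsupp.cons 0 s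
      · subst h3
        rw [Finsupp.tail_cons, if_pos rfl, if_pos rfl]
        simp only [Finsupp.cons_succ]
        ring
      · rw [if_neg h3, if_neg, mul_zero]
        intro h4
        apply h3
        rw [← h4, ← hu, Finsupp.cons_tail]
    · rw [zero_pow hu, zero_mul, mul_zero, coeff_zero, if_neg, mul_zero]
      intro h4
      apply hu
      rw [h4, Finsupp.cons_zero]
  | add p q hp hq =>
    rw [map_add, coeff_add, hp, hq, coeff_add, mul_add]

theorem aeval_smul_homog {A : Type*} [CommRing A] [Algebra K A] {n d : ℕ}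
    {F : MvPolynomial (Fin n) K} (hF : F.IsHomogeneous d) (c : A) (g : Fin n → A) :
    aeval (fun j => c * g j) F = c ^ d * aeval g F := by
  conv_lhs => rw [F.as_sum]
  conv_rhs => rw [F.as_sum]
  rw [map_sum, map_sum, Finset.mul_sum]
  refine Finset.sum_congr rfl fun s hs => ?_
  have h1 : Finsupp.degree s = d := by
    by_contra h
    exact (mem_support_iff.1 hs) (hF.coeff_eq_zero h)
  rw [aeval_monomial, aeval_monomial, Finsupp.prod_fintype _ _ (fun i => pow_zero _),
    Finsupp.prod_fintype _ _ (fun i => pow_zero _)]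
  simp only [mul_pow, Finset.prod_mul_distrib]
  rw [Finset.prod_pow_eq_pow_sum, ← h1, Finsupp.degree_eq_sum]
  ring

/-- Vanishing Taylor coefficients of a form at a vector of the cone over a point, and the
dehomogenized polynomial at the point. -/
theorem mem_pt_of_taylor {E d m : ℕ} {v : Fin (E + 2) → K} (hv : v 0 ≠ 0)
    {F : MvPolynomial (Fin (E + 2)) K} (hF : F.IsHomogeneous d)
    (h : ∀ s : Fin (E + 2) →₀ ℕ, (∑ j, s j) < m →
      coeff s (aeval (fun j : Fin (E + 2) => (X j + C (v j) : MvPolynomial (Fin (E + 2)) K)) F)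
        = 0) :
    deh K E F ∈ pt (fun j : Fin (E + 1) => v j.succ / v 0) ^ m := by
  rw [mem_pt_pow_iff]
  intro s hs
  obtain ⟨t, ht⟩ : ∃ t, t = v 0 := ⟨_, rfl⟩
  have ht0 : t ≠ 0 := by rw [ht]; exact hv
  have h1 := h (Finsupp.cons 0 s) (by
    rw [Fin.sum_univ_succ]
    simp only [Finsupp.cons_zero, Finsupp.cons_succ, zero_add]
    rwa [← Finsupp.degree_eq_sum])
  have h2 := coeff_sub0 t (aeval (fun j : Fin (E + 2) =>
    (X j + C (v j) : MvPolynomial (Fin (E + 2)) K)) F) s
  rw [h1, mul_zero] at h2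
  have h3 : aeval (Fin.cons 0 (fun j => C t * X j) :
      Fin (E + 2) → MvPolynomial (Fin (E + 1)) K)
      (aeval (fun j : Fin (E + 2) => (X j + C (v j) : MvPolynomial (Fin (E + 2)) K)) F) =
      C t ^ d * shift (fun j : Fin (E + 1) => v j.succ / v 0) (deh K E F) := by
    have h4 : shift (fun j : Fin (E + 1) => v j.succ / v 0) (deh K E F) =
        aeval (Fin.cons 1 (fun j : Fin (E + 1) => X j + C (v j.succ / v 0)) :
          Fin (E + 2) → MvPolynomial (Fin (E + 1)) K) F := by
      have h5 : (shift (fun j : Fin (E + 1) => v j.succ / v 0)).comp (deh K E) =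
          aeval (Fin.cons 1 (fun j : Fin (E + 1) => X j + C (v j.succ / v 0)) :
            Fin (E + 2) → MvPolynomial (Fin (E + 1)) K) := by
        refine MvPolynomial.algHom_ext fun j => ?_
        rw [AlgHom.comp_apply, aeval_X]
        refine Fin.cases ?_ (fun k => ?_) j
        · rw [deh_X0, map_one, Fin.cons_zero]
        · rw [deh_X, shift_X, Fin.cons_succ]
      rw [← h5, AlgHom.comp_apply]
    rw [h4, ← aeval_smul_homog hF]
    have h6 : (aeval (Fin.cons 0 (fun j => C t * X j) :
        Fin (E + 2) → MvPolynomial (Fin (E + 1)) K)).comp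
        (aeval (fun j : Fin (E + 2) => (X j + C (v j) : MvPolynomial (Fin (E + 2)) K))) =
        aeval (fun j => C t * (Fin.cons 1 (fun j : Fin (E + 1) => X j + C (v j.succ / v 0)) :
          Fin (E + 2) → MvPolynomial (Fin (E + 1)) K) j) := by
      refine MvPolynomial.algHom_ext fun j => ?_
      rw [AlgHom.comp_apply, aeval_X, aeval_X, map_add, aeval_X]
      have hC : ∀ a : K, aeval (Fin.cons 0 (fun j => C t * X j) :
          Fin (E + 2) → MvPolynomial (Fin (E + 1)) K) (C a) = C a := fun a => by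
        rw [aeval_C, algebraMap_eq]
      rw [hC]
      refine Fin.cases ?_ (fun k => ?_) j
      · rw [Fin.cons_zero, Fin.cons_zero, zero_add, mul_one, ht]
      · rw [Fin.cons_succ, Fin.cons_succ, mul_add, ← C_mul, ht, mul_div_cancel₀ _ hv]
    rw [← h6, AlgHom.comp_apply]
  rw [h3, ← C_pow, coeff_C_mul] at h2
  exact (mul_eq_zero.1 h2).resolve_left (pow_ne_zero _ ht0)

end Taylor

/-- Very general points of the plane: outside countably many hypersurfaces the first coordinates
are nonzero and the affine coordinates are algebraically independent over the prime field. -/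
theorem exists_family_proj (n : ℕ) : ∃ G : ℕ → MvPolynomial (Fin n × Fin 3) ℂ,
    (∀ j, G j ≠ 0) ∧ ∀ v : Fin n → Fin 3 → ℂ,
      (∀ j, eval (fun q : Fin n × Fin 3 => v q.1 q.2) (G j) ≠ 0) →
      (∀ i, v i 0 ≠ 0) ∧ AlgebraicIndependent (⊥ : Subfield ℂ)
        (fun q : Fin n × Fin 2 => v q.1 q.2.succ / v q.1 0) := by
  classical
  obtain ⟨F, hF, hF'⟩ := Pool.Agent.H852.QP.exists_family (Fin n × Fin 2)
  have h1 : ∀ j, ∃ G : MvPolynomial (Fin n × Fin 3) ℂ, G ≠ 0 ∧ ∀ v : Fin n → Fin 3 → ℂ,
      eval (fun q : Fin n × Fin 3 => v q.1 q.2) G ≠ 0 →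
        (∀ i, v i 0 ≠ 0) ∧
        eval (fun q : Fin n × Fin 2 => v q.1 q.2.succ / v q.1 0) (F j) ≠ 0 := by
    intro j
    obtain ⟨G, hG, hG'⟩ := H932R3.exists_homogenise (F j) (hF j)
    let e : Fin n × Fin 3 → Fin n × Fin 3 := fun q => (q.1, (![1, 2, 0] : Fin 3 → Fin 3) q.2)
    have he : Function.Injective e := by
      rintro ⟨a, b⟩ ⟨c, d⟩ h
      have h0 := congrArg Prod.fst h
      have h2 := congrArg Prod.snd h
      simp only [e] at h0 h2
      subst h0
      congr 1
      fin_cases b <;> fin_cases d <;> simp_all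
    refine ⟨rename e G, fun h0 => hG (rename_injective e he (h0.trans (map_zero _).symm)),
      fun v hv => ?_⟩
    rw [eval_rename] at hv
    obtain ⟨h2, h3⟩ := hG' (fun i => ![v i 1, v i 2, v i 0]) (by
      have e1 : (fun q : Fin n × Fin 3 => (![v q.1 1, v q.1 2, v q.1 0] : Fin 3 → ℂ) q.2) =
          (fun q : Fin n × Fin 3 => v q.1 q.2) ∘ e := by
        funext q
        obtain ⟨i, j⟩ := q
        fin_cases j <;> simp [e]
      rw [e1]
      exact hv)
    refine ⟨fun i => by simpa using h2 i, ?_⟩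
    have e2 : (fun q : Fin n × Fin 2 => v q.1 q.2.succ / v q.1 0) =
        fun q : Fin n × Fin 2 => (![v q.1 1, v q.1 2, v q.1 0] : Fin 3 → ℂ)
          (Fin.castSucc q.2) / (![v q.1 1, v q.1 2, v q.1 0] : Fin 3 → ℂ) 2 := by
      funext q
      obtain ⟨i, j⟩ := q
      fin_cases j <;> simp
    rw [e2]
    exact h3
  choose G hG hG' using h1
  exact ⟨G, hG, fun v hv => ⟨(hG' 0 v (hv 0)).1, hF' _ fun j => (hG' j v (hv j)).2⟩⟩

end Pool.Agent.TH176.Nag
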