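import Pool.Agent.TH176.Nag.Stair
import Pool.Agent.TH671.NagI1
import Pool.Agent.TH698.NagI23
import Pool.Agent.TH543.NagJ
import Pool.Agent.TH494.NagG
import Pool.Agent.TH819.NagD

/-! The degeneration from the weighted plane to the charts. -/

namespace Pool.Agent.TH176.Nag

open Finset

section Dg
variable {K : Type*} [Field K]

/-- all weights are at most `D` and congruent to `D` modulo `N` -/
def Dg (N p q D : ℤ) (f : Lau K) : Prop :=
  ∀ m ∈ f.coeff.support, m.1 * p + m.2 * q ≤ D ∧ N ∣ (D - (m.1 * p + m.2 * q))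

theorem Dg.zero (N p q D : ℤ) : Dg N p q D (0 : Lau K) := by
  intro m hm
  simp at hm

theorem Dg.add {N p q D : ℤ} {f g : Lau K} (hf : Dg N p q D f) (hg : Dg N p q D g) :
    Dg N p q D (f + g) := by
  intro m hm
  by_cases h : f.coeff m = 0
  · apply hg m
    rw [Finsupp.mem_support_iff] at hm ⊢
    intro h2
    apply hm
    rw [AddMonoidAlgebra.coeff_add, Finsupp.add_apply, h, h2, add_zero]
  · exact hf m (Finsupp.mem_support_iff.2 h)

theorem Dg.smul {N p q D : ℤ} {f : Lau K} (hf : Dg N p q D f) (c : K) : Dg N p q D (c • f) := by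
  intro m hm
  apply hf m
  rw [Finsupp.mem_support_iff] at hm ⊢
  intro h
  apply hm
  rw [AddMonoidAlgebra.coeff_smul, Finsupp.smul_apply, h, smul_zero]

theorem Dg.mul {N p q D E : ℤ} {f g : Lau K} (hf : Dg N p q D f) (hg : Dg N p q E g) :
    Dg N p q (D + E) (f * g) := by
  classical
  intro m hm
  have h2 := AddMonoidAlgebra.support_coeff_mul_subset f g hm
  rw [Finset.mem_add] at h2
  obtain ⟨a, ha, b, hb, rfl⟩ := h2
  obtain ⟨h3, h3'⟩ := hf a ha
  obtain ⟨h4, h4'⟩ := hg b hb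
  simp only [Prod.fst_add, Prod.snd_add]
  refine ⟨by nlinarith, ?_⟩
  have h5 := dvd_add h3' h4'
  have e : D - (a.1 * p + a.2 * q) + (E - (b.1 * p + b.2 * q)) =
    D + E - ((a.1 + b.1) * p + (a.2 + b.2) * q) := by ring
  rwa [e] at h5

theorem Dg.one (N p q : ℤ) : Dg N p q 0 (1 : Lau K) := by
  classical
  intro m hm
  have h : m = 0 := by
    by_contra h
    rw [Finsupp.mem_support_iff] at hm
    apply hm
    rw [← mon_zero]
    unfold mon
    rw [AddMonoidAlgebra.coeff_single, Finsupp.single_apply, if_neg (fun h' => h h'.symm)]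
  subst h
  simp

theorem Dg.pow {N p q D : ℤ} {f : Lau K} (hf : Dg N p q D f) (n : ℕ) :
    Dg N p q (n * D) (f ^ n) := by
  induction n with
  | zero => simpa using Dg.one N p q
  | succ n ih =>
    rw [pow_succ]
    have h := ih.mul hf
    have e : (n : ℤ) * D + D = ((n + 1 : ℕ) : ℤ) * D := by push_cast; ring
    rwa [e] at h

theorem Dg.sum {N p q D : ℤ} {κ : Type*} (s : Finset κ) (F : κ → Lau K)
    (h : ∀ k ∈ s, Dg N p q D (F k)) : Dg N p q D (∑ k ∈ s, F k) := by
  classical
  induction s using Finset.induction_on with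
  | empty => simpa using Dg.zero N p q D
  | insert a s ha ih =>
    rw [Finset.sum_insert ha]
    exact (h a (Finset.mem_insert_self a s)).add (ih fun k hk => h k (Finset.mem_insert_of_mem hk))

end Dg

section ev
variable {K : Type*} [Field K]

/-- the character of a torus point -/
noncomputable def chr (x y : K) (hx : x ≠ 0) (hy : y ≠ 0) : Multiplicative (ℤ × ℤ) →* K where
  toFun m := x ^ (Multiplicative.toAdd m).1 * y ^ (Multiplicative.toAdd m).2
  map_one' := by simp
  map_mul' m m' := by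
    simp only [toAdd_mul, Prod.fst_add, Prod.snd_add]
    rw [zpow_add₀ hx, zpow_add₀ hy]; ring

/-- evaluation of Laurent polynomials at a torus point -/
noncomputable def evL (x y : K) (hx : x ≠ 0) (hy : y ≠ 0) : Lau K →ₐ[K] K :=
  AddMonoidAlgebra.lift K K (ℤ × ℤ) (chr x y hx hy)

theorem evL_mon (x y : K) (hx : x ≠ 0) (hy : y ≠ 0) (m : ℤ × ℤ) :
    evL x y hx hy (mon K m) = x ^ m.1 * y ^ m.2 := by
  unfold evL mon
  rw [AddMonoidAlgebra.lift_single]
  simp [chr]

theorem evL_zL (x y : K) (hx : x ≠ 0) (hy : y ≠ 0) (N : ℕ) :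
    ((evL x y hx hy (zL K N).1, evL x y hx hy (zL K N).2.1, evL x y hx hy (zL K N).2.2.1,
      evL x y hx hy (zL K N).2.2.2) : K × K × K × K) = zK N x y := by
  unfold zL zK
  simp only [map_mul, map_add, map_one, evL_mon]
  simp only [zpow_zero, zpow_neg_one, one_mul, zpow_natCast, mul_one, zpow_one]
  refine Prod.ext ?_ (Prod.ext rfl (Prod.ext rfl ?_))
  · simp only; rw [mul_comm, div_eq_mul_inv]
  · simp only; rw [mul_comm, div_eq_mul_inv]

end ev

section orders
variable {K : Type} [Field K]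

theorem order_cst {c : K} (hc : c ≠ 0) : (tv K * cst c) ≠ 0 ∧ (tv K * cst c).order = 1 := by
  have h1 : tv K ≠ 0 := by simp [tv]
  have h2 : cst c ≠ 0 := by simpa using hc
  refine ⟨mul_ne_zero h1 h2, ?_⟩
  rw [HahnSeries.order_mul h1 h2, HahnSeries.order_C, HahnSeries.order_single one_ne_zero, add_zero]

theorem start_order {N : ℕ} (hN : 3 ≤ N) {x y : K} (hx : x ≠ 0) (hy : y ≠ 0) :
    (zK N (tv K * cst x) (tv K * cst y)).1 ≠ 0 ∧ (zK N (tv K * cst x) (tv K * cst y)).1.order = -1 := by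
  obtain ⟨hx0, hx1⟩ := order_cst hx
  obtain ⟨hy0, hy1⟩ := order_cst hy
  have hpos : ((tv K * cst x) ^ N).order = N := by
    rw [HahnSeries.order_pow, hx1]; simp
  have h1 : (1 : LaurentSeries K).orderTop < ((tv K * cst x) ^ N).orderTop := by
    rw [HahnSeries.orderTop_one, ← HahnSeries.order_eq_orderTop_of_ne_zero (pow_ne_zero N hx0), hpos]
    have : (0 : ℤ) < (N : ℤ) := by omega
    exact_mod_cast this
  have h2 := HahnSeries.orderTop_add_eq_left h1
  have h3 : 1 + (tv K * cst x) ^ N ≠ 0 := by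
    intro h
    rw [h, HahnSeries.orderTop_zero, HahnSeries.orderTop_one] at h2
    exact absurd h2 (by simp)
  have h4 : (1 + (tv K * cst x) ^ N).order = 0 := by
    rw [← HahnSeries.order_eq_orderTop_of_ne_zero h3, HahnSeries.orderTop_one] at h2
    exact_mod_cast h2
  have h5 : (zK N (tv K * cst x) (tv K * cst y)).1 = (1 + (tv K * cst x) ^ N) / (tv K * cst y) := rfl
  have h6 : (zK N (tv K * cst x) (tv K * cst y)).1 ≠ 0 := by
    rw [h5]; exact div_ne_zero h3 hy0
  refine ⟨h6, ?_⟩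
  have h7 : (zK N (tv K * cst x) (tv K * cst y)).1 * (tv K * cst y) = 1 + (tv K * cst x) ^ N := by
    rw [h5, div_mul_cancel₀ _ hy0]
  have h8 := congrArg HahnSeries.order h7
  rw [HahnSeries.order_mul h6 hy0, h4, hy1] at h8
  omega

theorem iter_order {N : ℕ} (hN : 3 ≤ N) {x y : K} (hx : x ≠ 0) (hy : y ≠ 0) (t : ℕ) :
    ((stp N)^[t] (zK N (tv K * cst x) (tv K * cst y))).1 ≠ 0 ∧
    ((stp N)^[t] (zK N (tv K * cst x) (tv K * cst y))).2.1 ≠ 0 ∧
    ((stp N)^[t] (zK N (tv K * cst x) (tv K * cst y))).1.order < 0 ∧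
    ((stp N)^[t] (zK N (tv K * cst x) (tv K * cst y))).1.order <
      ((stp N)^[t] (zK N (tv K * cst x) (tv K * cst y))).2.1.order := by
  obtain ⟨hx0, hx1⟩ := order_cst hx
  obtain ⟨hy0, hy1⟩ := order_cst hy
  induction t with
  | zero =>
    obtain ⟨h1, h2⟩ := start_order hN hx hy
    simp only [Function.iterate_zero, id_eq]
    refine ⟨h1, hx0, by omega, ?_⟩
    have : (zK N (tv K * cst x) (tv K * cst y)).2.1.order = 1 := hx1
    omega
  | succ t ih =>
    obtain ⟨h1, h2, h3, h4⟩ := ih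
    have hrel := (zK_rel N hx0 hy0).iter (by omega) t
    obtain ⟨h5, h6⟩ := order_step (by omega) hrel h1 h2 h3
    rw [Function.iterate_succ_apply']
    have h7 : (stp N ((stp N)^[t] (zK N (tv K * cst x) (tv K * cst y)))).2.1 =
        ((stp N)^[t] (zK N (tv K * cst x) (tv K * cst y))).1 := rfl
    rw [h7, h6]
    have hN' : (3 : ℤ) ≤ N := by exact_mod_cast hN
    refine ⟨h5, h1, ?_, ?_⟩
    · nlinarith
    · nlinarith

/-- nonvanishing of the three functions at the scaled points -/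
theorem s012_ne {N : ℕ} (hN : 3 ≤ N) {x y : K} (hx : x ≠ 0) (hy : y ≠ 0) (t : ℕ) :
    s0 N (t + 2) (zK N (tv K * cst x) (tv K * cst y)) ≠ 0 ∧
    s1 N (t + 2) (zK N (tv K * cst x) (tv K * cst y)) ≠ 0 ∧
    s2 N (t + 2) (zK N (tv K * cst x) (tv K * cst y)) ≠ 0 := by
  obtain ⟨hx0, hx1⟩ := order_cst hx
  obtain ⟨hy0, hy1⟩ := order_cst hy
  have e0 : s0 N (t + 2) (zK N (tv K * cst x) (tv K * cst y)) =
      ((stp N)^[t+1] (zK N (tv K * cst x) (tv K * cst y))).1 := by
    unfold s0; rw [Function.iterate_succ_apply']; rfl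
  have e1 : s1 N (t + 2) (zK N (tv K * cst x) (tv K * cst y)) =
      ((stp N)^[t] (zK N (tv K * cst x) (tv K * cst y))).1 := by
    unfold s1; rw [Function.iterate_succ_apply', Function.iterate_succ_apply']; rfl
  obtain ⟨h1, h2, h3, h4⟩ := iter_order hN hx hy (t + 1)
  obtain ⟨h1', h2', h3', h4'⟩ := iter_order hN hx hy t
  have h5 : ((stp N)^[t+1] (zK N (tv K * cst x) (tv K * cst y))).2.1 =
      ((stp N)^[t] (zK N (tv K * cst x) (tv K * cst y))).1 := by
    rw [Function.iterate_succ_apply']; rfl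
  rw [h5, ← e0, ← e1] at h4
  rw [← e0] at h1 h3
  rw [← e1] at h1' h3'
  refine ⟨h1, h1', ?_⟩
  intro hs2
  have h6 := (zK_rel N hx0 hy0).s012 (by omega) (t + 2)
  rw [hs2, mul_zero] at h6
  set a := s0 N (t + 2) (zK N (tv K * cst x) (tv K * cst y))
  set b := s1 N (t + 2) (zK N (tv K * cst x) (tv K * cst y))
  have hN' : (3 : ℤ) ≤ N := by exact_mod_cast hN
  have h7 : (b ^ N).order = N * b.order := by rw [HahnSeries.order_pow]; simp
  have h8 : (a ^ N).order = N * a.order := by rw [HahnSeries.order_pow]; simp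
  obtain ⟨h9, h10⟩ := order_one_add (pow_ne_zero N h1') (by rw [h7]; nlinarith)
  have h11 : a ^ N = -(1 + b ^ N) := by linear_combination -h6
  have h12 := congrArg HahnSeries.order h11
  rw [HahnSeries.order_neg, h10, h7, h8] at h12
  nlinarith

end orders

end Pool.Agent.TH176.Nag
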