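import Pool.Agent.TH176.Nag.Stair3
import Pool.Agent.TH176.Nag.Region

/-! The limit of the staircase and the emptiness of the plane systems. -/

namespace Pool.Agent.TH176.Nag

open Finset

theorem gs_large {N : ℤ} (hN : 3 ≤ N) (k : ℕ) : (k : ℤ) ≤ gs N (k + 1) := by
  induction k with
  | zero => simp [gs]
  | succ k ih =>
    rw [gs_two]
    have h1 := (gs_pos_mono hN k).1
    have h2 := (gs_pos_mono hN k).2
    push_cast
    nlinarith

/-- the ratio of consecutive degrees tends to the larger root `ω` of `ω ^ 2 - N ω + 1` -/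
theorem gs_ratio {N : ℕ} (hN : 3 ≤ N) {ω : ℝ} (hω : 2 ≤ ω) (hω2 : ω ^ 2 + 1 = N * ω) {e E : ℝ}
    (hE : e < E) (hE0 : 0 < E) : ∃ t : ℕ, 2 ≤ t ∧
    ((gs N (t + 1) : ℤ) : ℝ) ≤ ω * (gs N t : ℤ) ∧ ω * e * (gs N t : ℤ) ≤ E * (gs N (t + 1) : ℤ) := by
  have hN' : (3 : ℤ) ≤ N := by exact_mod_cast hN
  obtain ⟨k, hk⟩ := exists_nat_gt (2 * N * E / (E - e))
  refine ⟨k + 3, by omega, ?_⟩
  have hmk := gs_markov (N := (N : ℤ)) (k + 3)
  have hmono := (gs_pos_mono hN' (k + 3)).2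
  have hlarge : ((k + 2 : ℕ) : ℤ) ≤ gs N (k + 2 + 1) := gs_large hN' (k + 2)
  set g : ℤ := gs N (k + 3) with hg
  set g' : ℤ := gs N (k + 3 + 1) with hg'
  have hgk : (k : ℝ) ≤ (g : ℝ) := by
    have : (k : ℤ) ≤ g := by
      have : ((k + 2 : ℕ) : ℤ) ≤ g := hlarge
      push_cast at this; omega
    exact_mod_cast this
  have hg1 : (1 : ℝ) ≤ (g : ℝ) := by
    have := (gs_pos_mono hN' (k + 3)).1
    exact_mod_cast this
  have hmonoR : (g : ℝ) ≤ (g' : ℝ) := by exact_mod_cast hmono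
  have hmkR : (g : ℝ) ^ 2 + (g' : ℝ) ^ 2 + ((N : ℝ) - 2) = N * g * g' := by exact_mod_cast hmk
  have hNR : (3 : ℝ) ≤ N := by exact_mod_cast hN
  -- (ω g - g') (ω g' - g) = (N - 2) ω
  have hprod : (ω * g - g') * (ω * g' - g) = (N - 2) * ω := by
    linear_combination (-ω) * hmkR + g * g' * hω2
  have hpos2 : 0 < ω * g' - g := by nlinarith
  have hpos1 : 0 ≤ ω * g - g' := by
    by_contra h
    have h1 : (ω * g - g') * (ω * g' - g) < 0 := mul_neg_of_neg_of_pos (not_le.1 h) hpos2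
    have h2 : 0 ≤ ((N : ℝ) - 2) * ω := by apply mul_nonneg <;> linarith
    linarith
  refine ⟨by linarith, ?_⟩
  -- ω g' - g >= g (ω - 1) >= g ω / 2
  have h3 : g * ω / 2 ≤ ω * g' - g := by nlinarith
  have h4 : (ω * g - g') * g ≤ 2 * N := by
    have h5 : (ω * g - g') * (g * ω / 2) ≤ (N - 2) * ω := by
      rw [← hprod]; exact mul_le_mul_of_nonneg_left h3 hpos1
    have h6 : ω * ((ω * g - g') * g) ≤ ω * (2 * (N - 2)) := by linarith
    have h7 := le_of_mul_le_mul_left h6 (by linarith)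
    linarith
  have hd : 0 < E - e := by linarith
  have h8 : 2 * N * E < (E - e) * g := by
    have : 2 * N * E / (E - e) < g := lt_of_lt_of_le hk hgk
    rw [div_lt_iff₀ hd] at this
    linarith
  -- E (ω g - g') <= (E - e) ω g
  have h9 : E * (ω * g - g') * g ≤ (E - e) * ω * g * g := by
    have h10 : E * ((ω * g - g') * g) ≤ E * (2 * N) := mul_le_mul_of_nonneg_left h4 hE0.le
    have h11 : E * (2 * N) ≤ (E - e) * g := by linarith
    have h12 : (E - e) * g ≤ (E - e) * ω * g * g := by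
      have : (E - e) * g * 1 ≤ (E - e) * g * (ω * g) := by
        apply mul_le_mul_of_nonneg_left _ (by positivity)
        nlinarith
      linarith
    linarith
  have h13 := le_of_mul_le_mul_right h9 (by linarith)
  linarith

theorem Q3_sub_Reg {N : ℕ} (hN : 3 ≤ N) {ω : ℝ} {e t : ℕ} {E : ℝ} (hω : 0 < ω)
    (h1 : ((gs N (t + 1) : ℤ) : ℝ) ≤ ω * (gs N t : ℤ)) (h2 : ω * e * (gs N t : ℤ) ≤ E * (gs N (t + 1) : ℤ)) :
    Q3 N t e ⊆ Reg 0 (E * ω) (1 / (N - 2)) ((ω ^ 2 - 1) / (N - 2)) := by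
  rintro ⟨a, b⟩ ⟨hb, hab, hc⟩
  simp only at hb hab hc
  have hN' : (3 : ℤ) ≤ N := by exact_mod_cast hN
  have hg := gs_pos hN' t
  have hg' := gs_pos hN' (t + 1)
  have hM : (0 : ℝ) < (N : ℝ) - 2 := by
    have : (3 : ℝ) ≤ N := by exact_mod_cast hN
    linarith
  set g : ℤ := gs N t
  set g' : ℤ := gs N (t + 1)
  have hgR : (0 : ℝ) < g := by exact_mod_cast hg
  have hgR' : (0 : ℝ) < g' := by exact_mod_cast hg'
  have habR : (b : ℝ) ≤ (N - 2) * a := by exact_mod_cast hab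
  have hcR : ((N : ℝ) - 2) * a * g ^ 2 + b * (g' ^ 2 - g ^ 2) ≤ (N - 2) * e * (g * g') := by
    exact_mod_cast hc
  refine ⟨hb, ?_, ?_⟩
  · simp only
    rw [zero_add, one_div, inv_mul_le_iff₀ hM]
    exact habR
  · simp only
    -- multiply by (N - 2) g'^2
    have h3 : 0 ≤ ω ^ 2 * g ^ 2 - g' ^ 2 := by nlinarith
    have h4 : g' ^ 2 * (((N : ℝ) - 2) * a + (ω ^ 2 - 1) * b) ≤ ω ^ 2 * ((N - 2) * e * (g * g')) := by
      have e1 : g' ^ 2 * (((N : ℝ) - 2) * a + (ω ^ 2 - 1) * b) =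
          ω ^ 2 * (((N : ℝ) - 2) * a * g ^ 2 + b * (g' ^ 2 - g ^ 2)) -
            (ω ^ 2 * g ^ 2 - g' ^ 2) * ((N - 2) * a - b) := by ring
      rw [e1]
      have h5 : 0 ≤ (ω ^ 2 * g ^ 2 - g' ^ 2) * (((N : ℝ) - 2) * a - b) :=
        mul_nonneg h3 (by linarith)
      have h6 : ω ^ 2 * (((N : ℝ) - 2) * a * g ^ 2 + b * (g' ^ 2 - g ^ 2)) ≤
          ω ^ 2 * ((N - 2) * e * (g * g')) := mul_le_mul_of_nonneg_left hcR (by positivity)
      linarith
    have h7 : ω ^ 2 * (((N : ℝ) - 2) * e * (g * g')) ≤ g' ^ 2 * ((N - 2) * (E * ω)) := by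
      have h8 : (((N : ℝ) - 2) * ω * g') * (ω * e * g) ≤ ((N - 2) * ω * g') * (E * g') :=
        mul_le_mul_of_nonneg_left h2 (by positivity)
      linarith
    have h9 := le_of_mul_le_mul_left (h4.trans h7) (by positivity)
    have h10 : ((N : ℝ) - 2) * a ≤ (N - 2) * (E * ω - (ω ^ 2 - 1) / (N - 2) * b) := by
      have : ((N : ℝ) - 2) * (E * ω - (ω ^ 2 - 1) / (N - 2) * b) = (N - 2) * (E * ω) - (ω ^ 2 - 1) * b := by
        field_simp
      rw [this]; linarith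
    exact le_of_mul_le_mul_left h10 hM

variable {ι : Type} {w : ι → ℕ}

/-- from the limit triangle to the weighted plane -/
theorem Emp_limit {N : ℕ} (hN : 3 ≤ N) {ω : ℝ} (hω : 2 ≤ ω) (hω2 : ω ^ 2 + 1 = N * ω) {e : ℕ}
    {E : ℝ} (hE : (e : ℝ) < E) (h : Emp w (Reg 0 (E * ω) (1 / (N - 2)) ((ω ^ 2 - 1) / (N - 2)))) :
    Emp w (WP N e) := by
  have hE0 : 0 < E := lt_of_le_of_lt (Nat.cast_nonneg e) hE
  obtain ⟨t, ht, h1, h2⟩ := gs_ratio hN hω hω2 hE hE0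
  obtain ⟨s, rfl⟩ : ∃ s, t = s + 2 := ⟨t - 2, by omega⟩
  apply Emp_Q3 hN s e
  exact h.mono (Q3_sub_Reg hN (by linarith) h1 h2)

/-- from the weighted plane `P(1,1,4)` to the plane -/
theorem Emp_P2 {e : ℕ} (h : Emp w (WP 6 e)) :
    Emp w {m : ℤ × ℤ | 0 ≤ m.1 ∧ 0 ≤ m.2 ∧ m.1 + m.2 ≤ ((2 * e : ℕ) : ℤ)} := by
  have h1 : Emp w (Reg 0 (4 * e) 2 2) := by
    refine h.comap 1 (-2) 0 1 0 0 (by norm_num) ?_
    rintro ⟨a, b⟩ ⟨hb, hl, hr⟩
    simp only at hb hl hr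
    have hl' : 2 * b ≤ a := by
      have : (2 : ℝ) * b ≤ a := by linarith
      exact_mod_cast this
    have hr' : a ≤ 4 * e - 2 * b := by exact_mod_cast hr
    refine ⟨?_, ?_, ?_⟩
    · simp only; omega
    · simp only; omega
    · simp only; push_cast; linarith
  have h2 : Emp w (Reg 0 (2 * e) 0 1) := by
    refine Emp_regA 1 2 1 0 (by norm_num) (by norm_num) (by norm_num) (by norm_num) (by norm_num)
      (by norm_num) ?_ (by norm_num) ?_ h1
    · push_cast; ring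
    · push_cast; ring
  refine h2.mono ?_
  rintro ⟨a, b⟩ ⟨ha, hb, hab⟩
  simp only at ha hb hab
  refine ⟨hb, ?_, ?_⟩
  · simp only
    have : (0 : ℝ) ≤ a := by exact_mod_cast ha
    linarith
  · simp only
    have : ((a : ℝ) + b) ≤ ((2 * e : ℕ) : ℝ) := by exact_mod_cast hab
    push_cast at this
    linarith

end Pool.Agent.TH176.Nag
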