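import Mathlib

/-! Laurent polynomials with multiplicities at torus points, stated by linear conditions.
`LM f x y w` : the Laurent polynomial with coefficients `f` has multiplicity at least `w` at the
point `(x, y)` of the torus.  `Emp w S` : for some points (over some field of characteristic zero)
no nonzero Laurent polynomial with exponents in `S` has multiplicity at least `w i` at the
`i`-th point for all `i`. -/

namespace Pool.Agent.TH176.Nag

open Finset

section PF
variable {K : Type*} [Field K]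

/-- polynomial functions on `K × K` of degree less than `w` -/
def PF (K : Type*) [Field K] (w : ℕ) : Submodule K (K × K → K) :=
  Submodule.span K {P | ∃ a b : ℕ, a + b < w ∧ P = fun u => u.1 ^ a * u.2 ^ b}

theorem mem_PF_mono {a b w : ℕ} (h : a + b < w) :
    (fun u : K × K => u.1 ^ a * u.2 ^ b) ∈ PF K w :=
  Submodule.subset_span ⟨a, b, h, rfl⟩

theorem PF_mono {w w' : ℕ} (h : w ≤ w') : PF K w ≤ PF K w' := by
  apply Submodule.span_mono
  rintro P ⟨a, b, hab, rfl⟩
  exact ⟨a, b, by omega, rfl⟩

theorem PF_mul_fst {w : ℕ} {P : K × K → K} (hP : P ∈ PF K w) :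
    (fun u => u.1 * P u) ∈ PF K (w + 1) := by
  induction hP using Submodule.span_induction with
  | mem x h =>
    obtain ⟨a, b, hab, rfl⟩ := h
    have := mem_PF_mono (K := K) (a := a + 1) (b := b) (w := w + 1) (by omega)
    convert this using 2
    ring
  | zero => convert (PF K (w+1)).zero_mem using 2; simp
  | add x y _ _ hx hy => convert (PF K (w+1)).add_mem hx hy using 2; simp [mul_add]
  | smul a x _ hx => convert (PF K (w+1)).smul_mem a hx using 2; simp; ring

theorem PF_mul_snd {w : ℕ} {P : K × K → K} (hP : P ∈ PF K w) :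
    (fun u => u.2 * P u) ∈ PF K (w + 1) := by
  induction hP using Submodule.span_induction with
  | mem x h =>
    obtain ⟨a, b, hab, rfl⟩ := h
    have := mem_PF_mono (K := K) (a := a) (b := b + 1) (w := w + 1) (by omega)
    convert this using 2
    ring
  | zero => convert (PF K (w+1)).zero_mem using 2; simp
  | add x y _ _ hx hy => convert (PF K (w+1)).add_mem hx hy using 2; simp [mul_add]
  | smul a x _ hx => convert (PF K (w+1)).smul_mem a hx using 2; simp; ring

theorem PF_mul_aff {w : ℕ} {P : K × K → K} (hP : P ∈ PF K w) (c0 c1 c2 : K) :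
    (fun u => (c0 + c1 * u.1 + c2 * u.2) * P u) ∈ PF K (w + 1) := by
  have h0 := (PF K (w+1)).smul_mem c0 (PF_mono (Nat.le_succ w) hP)
  have h1 := (PF K (w+1)).smul_mem c1 (PF_mul_fst hP)
  have h2 := (PF K (w+1)).smul_mem c2 (PF_mul_snd hP)
  convert (PF K (w+1)).add_mem ((PF K (w+1)).add_mem h0 h1) h2 using 2
  simp; ring

theorem PF_const (c : K) {w : ℕ} (hw : 0 < w) : (fun _ : K × K => c) ∈ PF K w := by
  have := (PF K w).smul_mem c (mem_PF_mono (K := K) (a := 0) (b := 0) (w := w) (by omega))
  convert this using 2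
  simp

/-- closure under composition with affine maps -/
theorem PF_comp_aff {w : ℕ} {P : K × K → K} (hP : P ∈ PF K w) (c0 c1 c2 d0 d1 d2 : K) :
    (fun u : K × K => P (c0 + c1 * u.1 + c2 * u.2, d0 + d1 * u.1 + d2 * u.2)) ∈ PF K w := by
  have key : ∀ a b : ℕ, (fun u : K × K => (c0 + c1 * u.1 + c2 * u.2) ^ a *
      (d0 + d1 * u.1 + d2 * u.2) ^ b) ∈ PF K (a + b + 1) := by
    intro a b
    induction a with
    | zero =>
      induction b with
      | zero => simpa using PF_const (K := K) 1 (w := 1) (by omega)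
      | succ b ih =>
        have := PF_mul_aff ih d0 d1 d2
        have e : 0 + (b + 1) + 1 = 0 + b + 1 + 1 := by ring
        rw [e]
        convert this using 2
        rw [pow_succ, pow_zero]; ring
    | succ a ih =>
      have := PF_mul_aff ih c0 c1 c2
      have e : a + 1 + b + 1 = a + b + 1 + 1 := by ring
      rw [e]
      convert this using 2
      ring
  induction hP using Submodule.span_induction with
  | mem x h =>
    obtain ⟨a, b, hab, rfl⟩ := h
    exact PF_mono (by omega) (key a b)
  | zero => exact (PF K w).zero_mem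
  | add x y _ _ hx hy => exact (PF K w).add_mem hx hy
  | smul a x _ hx => exact (PF K w).smul_mem a hx

/-- descending product in the second variable -/
theorem PF_desc {a b w : ℕ} (h : a + b < w) :
    (fun u : K × K => u.1 ^ a * ∏ t ∈ range b, (u.2 - (t : K))) ∈ PF K w := by
  apply PF_mono (show a + b + 1 ≤ w by omega)
  clear h
  induction b with
  | zero => simpa using mem_PF_mono (K := K) (a := a) (b := 0) (w := a + 0 + 1) (by omega)
  | succ b ih =>
    have := PF_mul_aff ih (-(b : K)) 0 1
    have e : a + (b + 1) + 1 = a + b + 1 + 1 := by ring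
    rw [e]
    convert this using 2
    rw [prod_range_succ]; ring

/-- descending products in both variables -/
theorem PF_desc2 {a b w : ℕ} (h : a + b < w) :
    (fun u : K × K => (∏ t ∈ range a, (u.1 - (t : K))) * ∏ t ∈ range b, (u.2 - (t : K))) ∈ PF K w := by
  apply PF_mono (show a + b + 1 ≤ w by omega)
  clear h
  induction a with
  | zero => simpa using PF_desc (K := K) (a := 0) (b := b) (w := 0 + b + 1) (by omega)
  | succ a ih =>
    have := PF_mul_aff ih (-(a : K)) 1 0
    have e : a + 1 + b + 1 = a + b + 1 + 1 := by ring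
    rw [e]
    convert this using 2
    rw [prod_range_succ]; ring

/-- a submodule containing all `u.1 ^ a * desc_b (u.2)` with `a + b < w` contains `PF K w` -/
theorem PF_le_of_desc {w : ℕ} {V : Submodule K (K × K → K)}
    (hV : ∀ a b : ℕ, a + b < w → (fun u : K × K => u.1 ^ a * ∏ t ∈ range b, (u.2 - (t : K))) ∈ V) :
    PF K w ≤ V := by
  -- the mixed products u.1^a * u.2^c * desc_b(u.2)
  have key : ∀ c a b : ℕ, a + b + c < w →
      (fun u : K × K => u.1 ^ a * (u.2 ^ c * ∏ t ∈ range b, (u.2 - (t : K)))) ∈ V := by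
    intro c
    induction c with
    | zero => intro a b h; simpa using hV a b (by omega)
    | succ c ih =>
      intro a b h
      have h1 := ih a (b + 1) (by omega)
      have h2 := V.smul_mem (b : K) (ih a b (by omega))
      convert V.add_mem h1 h2 using 2
      simp only [Pi.smul_apply, smul_eq_mul, Pi.add_apply]
      rw [prod_range_succ]; ring
  apply Submodule.span_le.2
  rintro P ⟨a, b, hab, rfl⟩
  simpa using key b a 0 (by omega)

end PF

section LM
variable {K : Type*} [Field K]

/-- the pairing of a Laurent polynomial with the functional attached to `(x, y)` and `P` -/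
noncomputable def pr (f : (ℤ × ℤ) →₀ K) (x y : K) (P : K × K → K) : K :=
  f.sum fun m c => c * P ((m.1 : K), (m.2 : K)) * (x ^ m.1 * y ^ m.2)

/-- multiplicity at least `w` at the torus point `(x, y)` -/
def LM (f : (ℤ × ℤ) →₀ K) (x y : K) (w : ℕ) : Prop := ∀ P ∈ PF K w, pr f x y P = 0

theorem pr_add_right (f : (ℤ × ℤ) →₀ K) (x y : K) (P Q : K × K → K) :
    pr f x y (P + Q) = pr f x y P + pr f x y Q := by
  unfold pr Finsupp.sum
  rw [← sum_add_distrib]
  apply sum_congr rfl
  intro m _
  simp only [Pi.add_apply]; ring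

theorem pr_smul_right (f : (ℤ × ℤ) →₀ K) (x y : K) (c : K) (P : K × K → K) :
    pr f x y (c • P) = c * pr f x y P := by
  unfold pr Finsupp.sum
  rw [mul_sum]
  apply sum_congr rfl
  intro m _
  simp only [Pi.smul_apply, smul_eq_mul]; ring

theorem pr_zero_right (f : (ℤ × ℤ) →₀ K) (x y : K) : pr f x y 0 = 0 := by
  unfold pr Finsupp.sum
  simp

/-- the pairing as a linear map in `P` -/
noncomputable def prL (f : (ℤ × ℤ) →₀ K) (x y : K) : (K × K → K) →ₗ[K] K where
  toFun := pr f x y
  map_add' := pr_add_right f x y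
  map_smul' c P := by simp [pr_smul_right]

theorem LM_of_desc {f : (ℤ × ℤ) →₀ K} {x y : K} {w : ℕ}
    (h : ∀ a b : ℕ, a + b < w →
      pr f x y (fun u : K × K => u.1 ^ a * ∏ t ∈ range b, (u.2 - (t : K))) = 0) : LM f x y w := by
  intro P hP
  have : PF K w ≤ LinearMap.ker (prL f x y) := by
    apply PF_le_of_desc
    intro a b hab
    exact h a b hab
  exact this hP

theorem LM_of_mono {f : (ℤ × ℤ) →₀ K} {x y : K} {w : ℕ}
    (h : ∀ a b : ℕ, a + b < w → pr f x y (fun u : K × K => u.1 ^ a * u.2 ^ b) = 0) :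
    LM f x y w := by
  intro P hP
  have : PF K w ≤ LinearMap.ker (prL f x y) := by
    apply Submodule.span_le.2
    rintro P ⟨a, b, hab, rfl⟩
    exact h a b hab
  exact this hP

theorem LM.mono {f : (ℤ × ℤ) →₀ K} {x y : K} {w w' : ℕ} (h : LM f x y w) (hw : w' ≤ w) :
    LM f x y w' := fun P hP => h P (PF_mono hw hP)

theorem LM.desc {f : (ℤ × ℤ) →₀ K} {x y : K} {w : ℕ} (h : LM f x y w) {a b : ℕ} (hab : a + b < w) :
    pr f x y (fun u : K × K => u.1 ^ a * ∏ t ∈ range b, (u.2 - (t : K))) = 0 :=
  h _ (PF_desc hab)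

/-- general change of exponents: if `g` is obtained from `f` by an injective (on the support)
relabelling of exponents such that polynomial functions and characters correspond. -/
theorem LM.relabel {f g : (ℤ × ℤ) →₀ K} {x y X Y : K} {w : ℕ} (h : LM f x y w)
    (φ : ℤ × ℤ → ℤ × ℤ) (hg : g = f.mapDomain φ) (k : K)
    (hchar : ∀ m ∈ f.support, X ^ (φ m).1 * Y ^ (φ m).2 = k * (x ^ m.1 * y ^ m.2))
    (c0 c1 c2 d0 d1 d2 : K)
    (h1 : ∀ m ∈ f.support, (((φ m).1 : ℤ) : K) = c0 + c1 * (m.1 : K) + c2 * (m.2 : K))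
    (h2 : ∀ m ∈ f.support, (((φ m).2 : ℤ) : K) = d0 + d1 * (m.1 : K) + d2 * (m.2 : K)) :
    LM g X Y w := by
  intro P hP
  have h3 := h _ (PF_comp_aff hP c0 c1 c2 d0 d1 d2)
  unfold pr at h3 ⊢
  subst hg
  rw [Finsupp.sum_mapDomain_index (by simp) (by intro m a b; ring)]
  unfold Finsupp.sum at h3 ⊢
  have : ∑ a ∈ f.support, f a * P (((φ a).1 : K), ((φ a).2 : K)) * (X ^ (φ a).1 * Y ^ (φ a).2)
      = k * ∑ m ∈ f.support, f m * P (c0 + c1 * (m.1 : K) + c2 * (m.2 : K),
        d0 + d1 * (m.1 : K) + d2 * (m.2 : K)) * (x ^ m.1 * y ^ m.2) := by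
    rw [mul_sum]
    apply sum_congr rfl
    intro m hm
    rw [hchar m hm, h1 m hm, h2 m hm]; ring
  rw [this, h3, mul_zero]

end LM

section Emp
variable {ι : Type}

/-- for some points over some field of characteristic zero there is no nonzero Laurent polynomial
with exponents in `S` and multiplicity at least `w i` at the `i`-th point -/
def Emp (w : ι → ℕ) (S : Set (ℤ × ℤ)) : Prop :=
  ∃ (K : Type) (_ : Field K) (_ : CharZero K) (x y : ι → K), (∀ i, x i ≠ 0) ∧ (∀ i, y i ≠ 0) ∧
    ∀ f : (ℤ × ℤ) →₀ K, (↑f.support : Set (ℤ × ℤ)) ⊆ S → (∀ i, LM f (x i) (y i) (w i)) → f = 0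

theorem Emp.mono {w : ι → ℕ} {S S' : Set (ℤ × ℤ)} (h : Emp w S') (hS : S ⊆ S') : Emp w S := by
  obtain ⟨K, _, _, x, y, hx, hy, hf⟩ := h
  exact ⟨K, _, inferInstance, x, y, hx, hy, fun f h1 h2 => hf f (h1.trans hS) h2⟩

/-- integral affine changes of exponents with determinant different from zero -/
theorem Emp.comap {w : ι → ℕ} {S S' : Set (ℤ × ℤ)} (h : Emp w S')
    (a b c d u v : ℤ) (hdet : a * d - b * c ≠ 0)
    (hS : ∀ m ∈ S, (a * m.1 + b * m.2 + u, c * m.1 + d * m.2 + v) ∈ S') : Emp w S := by
  obtain ⟨K, _, _, X, Y, hX, hY, hf⟩ := h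
  let φ : ℤ × ℤ → ℤ × ℤ := fun m => (a * m.1 + b * m.2 + u, c * m.1 + d * m.2 + v)
  have hφ : Function.Injective φ := by
    rintro ⟨p, q⟩ ⟨p', q'⟩ h
    simp only [φ, Prod.mk.injEq] at h
    obtain ⟨h1, h2⟩ := h
    have e1 : (a * d - b * c) * (p - p') = 0 := by linear_combination d * h1 - b * h2
    have e2 : (a * d - b * c) * (q - q') = 0 := by linear_combination a * h2 - c * h1
    have e3 := (mul_eq_zero.1 e1).resolve_left hdet
    have e4 := (mul_eq_zero.1 e2).resolve_left hdet
    ext <;> simp <;> omega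
  refine ⟨K, _, inferInstance, fun i => X i ^ a * Y i ^ c, fun i => X i ^ b * Y i ^ d,
    fun i => mul_ne_zero (zpow_ne_zero _ (hX i)) (zpow_ne_zero _ (hY i)),
    fun i => mul_ne_zero (zpow_ne_zero _ (hX i)) (zpow_ne_zero _ (hY i)), ?_⟩
  intro f hfS hfL
  have h1 : f.mapDomain φ = 0 := by
    apply hf
    · intro m hm
      have := Finsupp.mapDomain_support hm
      simp only [Finset.mem_image] at this
      obtain ⟨m', hm', rfl⟩ := this
      exact hS m' (hfS hm')
    · intro i
      refine (hfL i).relabel φ rfl (X i ^ u * Y i ^ v) ?_ u a b v c d ?_ ?_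
      · intro m _
        simp only [φ]
        rw [mul_zpow, mul_zpow, ← zpow_mul, ← zpow_mul, ← zpow_mul, ← zpow_mul,
          zpow_add₀ (hX i), zpow_add₀ (hX i), zpow_add₀ (hY i), zpow_add₀ (hY i)]
        ring
      · intro m _; simp only [φ]; push_cast; ring
      · intro m _; simp only [φ]; push_cast; ring
  exact (Finsupp.mapDomain_injective hφ) (by rw [h1, Finsupp.mapDomain_zero])

end Emp

end Pool.Agent.TH176.Nag
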