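import Pool.Agent.TH176.Nag.Base

/-! Regions, the cluster recursion and the ring of Laurent polynomials. -/

namespace Pool.Agent.TH176.Nag

open Finset

/-- lattice points of the triangle with base from `α` to `β` on the horizontal axis and
sides `x = α + μ y`, `x = β - ν y` -/
def Reg (α β μ ν : ℝ) : Set (ℤ × ℤ) :=
  {m | 0 ≤ m.2 ∧ α + μ * (m.2 : ℝ) ≤ (m.1 : ℝ) ∧ (m.1 : ℝ) ≤ β - ν * (m.2 : ℝ)}

/-- Laurent polynomials in two variables -/
abbrev Lau (K : Type*) [Semiring K] := AddMonoidAlgebra K (ℤ × ℤ)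

/-- the monomial `a ^ i * b ^ j` -/
noncomputable def mon (K : Type*) [Semiring K] (m : ℤ × ℤ) : Lau K := AddMonoidAlgebra.single m 1

/-- `((1 + x ^ N) ^ N - 1) / x` as a polynomial -/
def pN {R : Type*} [CommRing R] (N : ℕ) (x : R) : R :=
  ∑ s ∈ range N, (N.choose (s + 1) : R) * x ^ (N * (s + 1) - 1)

/-- one step down the chain of charts -/
def stp {R : Type*} [CommRing R] (N : ℕ) (z : R × R × R × R) : R × R × R × R :=
  (z.1 ^ N * z.2.2.2 - pN N z.2.1, z.1, z.2.1, z.2.2.1)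

/-- the exchange relations of a quadruple of consecutive variables -/
def Rel {R : Type*} [CommRing R] (N : ℕ) (z : R × R × R × R) : Prop :=
  z.1 * z.2.2.1 = 1 + z.2.1 ^ N ∧ z.2.1 * z.2.2.2 = 1 + z.2.2.1 ^ N

/-- the three functions `s0, s1, s2` after `t` steps down from the quadruple `z` -/
def s0 {R : Type*} [CommRing R] (N t : ℕ) (z : R × R × R × R) : R := ((stp N)^[t] z).2.1
/-- see `s0` -/
def s1 {R : Type*} [CommRing R] (N t : ℕ) (z : R × R × R × R) : R := ((stp N)^[t] z).2.2.1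
/-- see `s0` -/
def s2 {R : Type*} [CommRing R] (N t : ℕ) (z : R × R × R × R) : R :=
  ((stp N)^[t] z).1 * ((stp N)^[t] z).2.2.2 -
    (((stp N)^[t] z).2.1 * ((stp N)^[t] z).2.2.1) ^ (N - 1)

/-- the quadruple of consecutive variables in a field, from the two middle ones -/
noncomputable def zK {K : Type*} [Field K] (N : ℕ) (x y : K) : K × K × K × K :=
  ((1 + x ^ N) / y, x, y, (1 + y ^ N) / x)

/-- the quadruple of consecutive variables as Laurent polynomials in the two middle ones -/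
noncomputable def zL (K : Type*) [Field K] (N : ℕ) : Lau K × Lau K × Lau K × Lau K :=
  (mon K (0, -1) * (1 + mon K (N, 0)), mon K (1, 0), mon K (0, 1), mon K (-1, 0) * (1 + mon K (0, N)))

/-- the degrees of the variables -/
def gs (N : ℤ) : ℕ → ℤ
  | 0 => 1
  | 1 => 1
  | (k + 2) => N * gs N (k + 1) - gs N k

theorem pN_mul {R : Type*} [CommRing R] (N : ℕ) (hN : 1 ≤ N) (x : R) :
    x * pN N x = (1 + x ^ N) ^ N - 1 := by
  unfold pN
  rw [mul_sum, add_comm (1 : R), add_pow, sum_range_succ']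
  simp only [one_pow, mul_one, pow_zero, Nat.choose_zero_right, Nat.cast_one, add_sub_cancel_right]
  apply sum_congr rfl
  intro s _
  have : N * (s + 1) = (N * (s + 1) - 1) + 1 := by
    have : 0 < N * (s + 1) := by positivity
    omega
  rw [← pow_mul]
  conv_rhs => rw [this, pow_succ]
  ring

theorem Rel.stp {R : Type*} [CommRing R] {N : ℕ} (hN : 1 ≤ N) {z : R × R × R × R} (h : Rel N z) :
    Rel N (stp N z) := by
  obtain ⟨z0, z1, z2, z3⟩ := z
  obtain ⟨h1, h2⟩ := h
  simp only [Rel, Nag.stp] at h1 h2 ⊢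
  refine ⟨?_, h1⟩
  have h3 := pN_mul N hN z1
  have : (z0 * z2) ^ N = (1 + z1 ^ N) ^ N := by rw [h1]
  rw [mul_pow] at this
  linear_combination z0 ^ N * h2 - h3 + this

theorem Rel.iter {R : Type*} [CommRing R] {N : ℕ} (hN : 1 ≤ N) {z : R × R × R × R} (h : Rel N z)
    (t : ℕ) : Rel N ((Nag.stp N)^[t] z) := by
  induction t with
  | zero => exact h
  | succ t ih => rw [Function.iterate_succ_apply']; exact ih.stp hN

/-- `s0 * s1 * s2 = 1 + s0 ^ N + s1 ^ N` -/
theorem Rel.s012 {R : Type*} [CommRing R] {N : ℕ} (hN : 1 ≤ N) {z : R × R × R × R} (h : Rel N z)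
    (t : ℕ) : s0 N t z * s1 N t z * s2 N t z = 1 + s0 N t z ^ N + s1 N t z ^ N := by
  obtain ⟨h1, h2⟩ := h.iter hN t
  unfold s0 s1 s2
  obtain ⟨M, rfl⟩ : ∃ M, N = M + 1 := ⟨N - 1, by omega⟩
  set z' := (Nag.stp (M + 1))^[t] z
  simp only [Nat.add_sub_cancel]
  rw [mul_pow]
  have e1 : z'.1 * z'.2.2.1 * (z'.2.1 * z'.2.2.2) = (1 + z'.2.1 ^ (M+1)) * (1 + z'.2.2.1 ^ (M+1)) := by
    rw [h1, h2]
  linear_combination e1

theorem map_stp {R S : Type*} [CommRing R] [CommRing S] (φ : R →+* S) (N : ℕ)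
    (z : R × R × R × R) :
    stp N (φ z.1, φ z.2.1, φ z.2.2.1, φ z.2.2.2) =
      (φ (stp N z).1, φ (stp N z).2.1, φ (stp N z).2.2.1, φ (stp N z).2.2.2) := by
  simp [stp, pN]

theorem map_iter {R S : Type*} [CommRing R] [CommRing S] (φ : R →+* S) (N t : ℕ)
    (z : R × R × R × R) :
    (stp N)^[t] (φ z.1, φ z.2.1, φ z.2.2.1, φ z.2.2.2) =
      (φ ((stp N)^[t] z).1, φ ((stp N)^[t] z).2.1, φ ((stp N)^[t] z).2.2.1,
        φ ((stp N)^[t] z).2.2.2) := by
  induction t with
  | zero => simp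
  | succ t ih =>
    rw [Function.iterate_succ_apply', Function.iterate_succ_apply', ih, map_stp]

theorem map_s0 {R S : Type*} [CommRing R] [CommRing S] (φ : R →+* S) (N t : ℕ)
    (z : R × R × R × R) : s0 N t (φ z.1, φ z.2.1, φ z.2.2.1, φ z.2.2.2) = φ (s0 N t z) := by
  unfold s0; rw [map_iter]

theorem map_s1 {R S : Type*} [CommRing R] [CommRing S] (φ : R →+* S) (N t : ℕ)
    (z : R × R × R × R) : s1 N t (φ z.1, φ z.2.1, φ z.2.2.1, φ z.2.2.2) = φ (s1 N t z) := by
  unfold s1; rw [map_iter]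

theorem map_s2 {R S : Type*} [CommRing R] [CommRing S] (φ : R →+* S) (N t : ℕ)
    (z : R × R × R × R) : s2 N t (φ z.1, φ z.2.1, φ z.2.2.1, φ z.2.2.2) = φ (s2 N t z) := by
  unfold s2; rw [map_iter]; simp

theorem mon_mul (K : Type*) [Field K] (m m' : ℤ × ℤ) : mon K m * mon K m' = mon K (m + m') := by
  simp [mon, AddMonoidAlgebra.single_mul_single]

theorem mon_zero (K : Type*) [Field K] : mon K 0 = 1 := rfl

theorem mon_pow (K : Type*) [Field K] (m : ℤ × ℤ) (n : ℕ) : mon K m ^ n = mon K (n • m) := by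
  simp [mon, AddMonoidAlgebra.single_pow]

theorem zL_rel (K : Type*) [Field K] (N : ℕ) : Rel N (zL K N) := by
  unfold Rel zL
  constructor
  · simp only
    rw [mul_right_comm, mon_mul, mon_pow]
    have : ((0, -1) + (0, 1) : ℤ × ℤ) = 0 := by ext <;> simp
    rw [this, mon_zero, one_mul]
    simp
  · simp only
    rw [← mul_assoc, mon_mul, mon_pow]
    have : ((1, 0) + (-1, 0) : ℤ × ℤ) = 0 := by ext <;> simp
    rw [this, mon_zero, one_mul]
    simp

theorem zK_rel {K : Type*} [Field K] (N : ℕ) {x y : K} (hx : x ≠ 0) (hy : y ≠ 0) :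
    Rel N (zK N x y) := by
  unfold Rel zK
  constructor
  · simp only; field_simp
  · simp only; field_simp

end Pool.Agent.TH176.Nag
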