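import Pool.Agent.TH176.Nag.Defs

/-! Flattening: pushing the fibres of the exponents down to the horizontal axis. -/

namespace Pool.Agent.TH176.Nag

open Finset

section lead
variable {K : Type} [Field K]

/-- the constant embedding -/
noncomputable abbrev cst (c : K) : LaurentSeries K := HahnSeries.C c

theorem coeff_cst_mul (c : K) (u : LaurentSeries K) (n : ℤ) :
    (cst c * u).coeff n = c * u.coeff n := by
  simp [cst]

theorem coeff_mul_cst (c : K) (u : LaurentSeries K) (n : ℤ) :
    (u * cst c).coeff n = c * u.coeff n := by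
  rw [mul_comm, coeff_cst_mul]

/-- the coefficients of the polynomial functions with constant coefficients -/
theorem LM_coeff {g : (ℤ × ℤ) →₀ LaurentSeries K} {x y : K} {w : ℕ}
    (h : LM g (cst x) (cst y) w) (n : ℤ) :
    LM (g.mapRange (fun u => u.coeff n) rfl) x y w := by
  apply LM_of_mono
  intro a b hab
  have h1 := h _ (mem_PF_mono hab)
  unfold pr at h1 ⊢
  rw [Finsupp.sum_mapRange_index (by simp)]
  have h2 := congrArg (fun u : LaurentSeries K => u.coeff n) h1
  simp only [HahnSeries.coeff_zero] at h2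
  rw [← h2]
  unfold Finsupp.sum
  rw [HahnSeries.coeff_sum]
  apply sum_congr rfl
  intro m _
  have e : (g m * (((m.1 : ℤ) : LaurentSeries K) ^ a * ((m.2 : ℤ) : LaurentSeries K) ^ b) *
      (cst x ^ m.1 * cst y ^ m.2)) = g m * cst (((m.1 : K) ^ a * (m.2 : K) ^ b) *
      (x ^ m.1 * y ^ m.2)) := by
    simp only [cst, map_mul, map_pow, map_intCast, map_zpow₀]
    ring
  beta_reduce
  rw [e, coeff_mul_cst]
  ring

instance charZero_laurent [CharZero K] : CharZero (LaurentSeries K) :=
  charZero_of_injective_ringHom (f := (HahnSeries.C : K →+* LaurentSeries K)) HahnSeries.C_injective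

/-- the leading part of a nonzero family of Laurent series -/
theorem exists_lead {g : (ℤ × ℤ) →₀ LaurentSeries K} (hg : g ≠ 0) :
    ∃ n : ℤ, g.mapRange (fun u => u.coeff n) rfl ≠ 0 ∧ (∀ m, ∀ k < n, (g m).coeff k = 0) ∧
      ∀ m, (g m).coeff n ≠ 0 → g m ≠ 0 ∧ (g m).order = n := by
  have hne : g.support.Nonempty := Finsupp.support_nonempty_iff.2 hg
  obtain ⟨m0, hm0, hmin⟩ := Finset.exists_min_image g.support (fun m => (g m).order) hne
  have hm0' : g m0 ≠ 0 := Finsupp.mem_support_iff.1 hm0
  have hlow : ∀ m, ∀ k < (g m0).order, (g m).coeff k = 0 := by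
    intro m k hk
    by_cases hm : g m = 0
    · rw [hm]; simp
    · exact HahnSeries.coeff_eq_zero_of_lt_order (lt_of_lt_of_le hk (hmin m (Finsupp.mem_support_iff.2 hm)))
  refine ⟨(g m0).order, ?_, hlow, ?_⟩
  · intro h
    have := DFunLike.congr_fun h m0
    simp only [Finsupp.mapRange_apply, Finsupp.coe_zero, Pi.zero_apply] at this
    exact hm0' (HahnSeries.coeff_order_eq_zero.1 this)
  · intro m hm
    have hm1 : g m ≠ 0 := by intro h; rw [h] at hm; simp at hm
    refine ⟨hm1, le_antisymm (HahnSeries.order_le_of_coeff_ne_zero hm)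
      (hmin m (Finsupp.mem_support_iff.2 hm1))⟩

end lead

section vand
variable {F : Type*} [Field F] [CharZero F]

/-- descending products as binomials -/
theorem prod_desc_nat (b l : ℕ) : (∏ t ∈ range l, ((b : F) - (t : F))) = (l.factorial : F) * (b.choose l : F) := by
  have h1 : (∏ t ∈ range l, ((b : F) - (t : F))) = (b.descFactorial l : F) := by
    by_cases hlb : l ≤ b
    · rw [Nat.descFactorial_eq_prod_range]
      push_cast
      apply prod_congr rfl
      intro t ht
      rw [Nat.cast_sub (by have := mem_range.1 ht; omega)]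
    · have h2 : b ∈ range l := mem_range.2 (by omega)
      rw [prod_eq_zero h2 (by simp), Nat.descFactorial_eq_zero_iff_lt.2 (by omega)]
      simp
  rw [h1, Nat.descFactorial_eq_factorial_mul_choose]
  push_cast
  ring

theorem vand {B : Finset ℕ} {v : ℕ → F} (h : ∀ l < B.card, ∑ b ∈ B, (b.choose l : F) * v b = 0) :
    ∀ b ∈ B, v b = 0 := by
  have key : ∀ c l : ℕ, c + l < B.card →
      ∑ b ∈ B, ((b : F) ^ c * ∏ t ∈ range l, ((b : F) - (t : F))) * v b = 0 := by
    intro c
    induction c with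
    | zero =>
      intro l hl
      have h1 := h l (by omega)
      have : ∑ b ∈ B, ((b : F) ^ 0 * ∏ t ∈ range l, ((b : F) - (t : F))) * v b =
          (l.factorial : F) * ∑ b ∈ B, (b.choose l : F) * v b := by
        rw [mul_sum]
        apply sum_congr rfl
        intro b _
        rw [prod_desc_nat]; ring
      rw [this, h1, mul_zero]
    | succ c ih =>
      intro l hl
      have h1 := ih (l + 1) (by omega)
      have h2 := ih l (by omega)
      have : ∑ b ∈ B, ((b : F) ^ (c + 1) * ∏ t ∈ range l, ((b : F) - (t : F))) * v b =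
          ∑ b ∈ B, ((b : F) ^ c * ∏ t ∈ range (l + 1), ((b : F) - (t : F))) * v b +
          (l : F) * ∑ b ∈ B, ((b : F) ^ c * ∏ t ∈ range l, ((b : F) - (t : F))) * v b := by
        rw [mul_sum, ← sum_add_distrib]
        apply sum_congr rfl
        intro b _
        rw [prod_range_succ]; ring
      rw [this, h1, h2, mul_zero, add_zero]
  have key2 : ∀ p : Polynomial F, p.natDegree < B.card → ∑ b ∈ B, p.eval (b : F) * v b = 0 := by
    intro p hp
    have : ∑ b ∈ B, p.eval (b : F) * v b =
        ∑ c ∈ range (B.card), p.coeff c * ∑ b ∈ B, ((b : F) ^ c * ∏ t ∈ range 0, ((b : F) - (t : F))) * v b := by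
      simp only [mul_sum]
      rw [sum_comm]
      apply sum_congr rfl
      intro b _
      rw [Polynomial.eval_eq_sum_range' hp, sum_mul]
      apply sum_congr rfl
      intro c _
      simp; ring
    rw [this]
    apply sum_eq_zero
    intro c hc
    rw [key c 0 (by have := mem_range.1 hc; omega), mul_zero]
  intro b0 hb0
  classical
  have h3 := key2 (∏ b ∈ B.erase b0, (Polynomial.X - Polynomial.C (b : F))) (by
    rw [Polynomial.natDegree_prod_of_monic _ _ (fun i _ => Polynomial.monic_X_sub_C _)]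
    simp only [Polynomial.natDegree_X_sub_C, sum_const, smul_eq_mul, mul_one]
    rw [card_erase_of_mem hb0]
    have : 0 < B.card := card_pos.2 ⟨b0, hb0⟩
    omega)
  rw [Finset.sum_eq_single b0] at h3
  · rcases mul_eq_zero.1 h3 with h4 | h4
    · exfalso
      rw [Polynomial.eval_prod] at h4
      obtain ⟨b, hb, hb'⟩ := prod_eq_zero_iff.1 h4
      simp only [Polynomial.eval_sub, Polynomial.eval_X, Polynomial.eval_C] at hb'
      have : (b0 : F) = b := sub_eq_zero.1 hb'
      have : b0 = b := by exact_mod_cast this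
      exact (mem_erase.1 hb).1 this.symm
    · exact h4
  · intro b hb hne
    rw [Polynomial.eval_prod, prod_eq_zero (mem_erase.2 ⟨hne, hb⟩) (by simp), zero_mul]
  · intro h; exact absurd hb0 h

end vand

section binom

/-- descending products of successors -/
theorem prod_desc_succ {F : Type*} [CommRing F] (j β : ℕ) :
    (∏ t ∈ range (β + 1), (((j + 1 : ℕ) : F) - (t : F))) = ((j + 1 : ℕ) : F) * ∏ t ∈ range β, ((j : F) - (t : F)) := by
  rw [prod_range_succ']
  simp only [Nat.cast_zero, sub_zero]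
  rw [mul_comm]
  congr 1
  apply prod_congr rfl
  intro t _
  push_cast; ring

theorem binom_desc {F : Type*} [CommRing F] (z : F) (β : ℕ) : ∀ b : ℕ,
    (1 + z) ^ β * ∑ j ∈ range (b + 1), (b.choose j : F) * (∏ t ∈ range β, ((j : F) - (t : F))) * z ^ j =
      (∏ t ∈ range β, ((b : F) - (t : F))) * z ^ β * (1 + z) ^ b := by
  induction β with
  | zero =>
    intro b
    simp only [pow_zero, range_zero, prod_empty, mul_one, one_mul]
    rw [add_comm 1 z, add_pow]
    apply sum_congr rfl
    intro j _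
    simp; ring
  | succ β ih =>
    intro b
    rcases b with _ | b
    · simp only [zero_add, range_one, sum_singleton, Nat.choose_self, Nat.cast_one, one_mul, pow_zero,
        mul_one, Nat.cast_zero]
      rw [prod_range_succ']
      simp
    · rw [sum_range_succ', prod_desc_succ]
      have h0 : (∏ t ∈ range (β + 1), (((0 : ℕ) : F) - (t : F))) = 0 := by
        rw [prod_range_succ']; simp
      rw [h0]
      have h1 : ∑ j ∈ range (b + 1), ((b + 1).choose (j + 1) : F) *
          (∏ t ∈ range (β + 1), (((j + 1 : ℕ) : F) - (t : F))) * z ^ (j + 1) =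
          ((b + 1 : ℕ) : F) * z * ∑ j ∈ range (b + 1), (b.choose j : F) *
            (∏ t ∈ range β, ((j : F) - (t : F))) * z ^ j := by
        rw [mul_sum]
        apply sum_congr rfl
        intro j _
        rw [prod_desc_succ]
        have h2 : ((b + 1).choose (j + 1) : F) * ((j + 1 : ℕ) : F) = ((b + 1 : ℕ) : F) * (b.choose j : F) := by
          have := Nat.add_one_mul_choose_eq b j
          exact_mod_cast congrArg (Nat.cast : ℕ → F) this.symm
        linear_combination (∏ t ∈ range β, ((j : F) - (t : F))) * z ^ (j + 1) * h2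
      rw [h1]
      have h3 := ih b
      simp only [mul_zero, zero_mul, add_zero]
      linear_combination (1 + z) * ((b + 1 : ℕ) : F) * z * h3

end binom

section flat
variable {K : Type} [Field K]

theorem pr_zero_left (x y : K) (P : K × K → K) : pr 0 x y P = 0 := by
  simp [pr]

theorem pr_add_left (f g : (ℤ × ℤ) →₀ K) (x y : K) (P : K × K → K) :
    pr (f + g) x y P = pr f x y P + pr g x y P := by
  unfold pr
  rw [Finsupp.sum_add_index' (by simp) (by intros; ring)]

theorem pr_sum_left {κ : Type*} (s : Finset κ) (f : κ → (ℤ × ℤ) →₀ K) (x y : K) (P : K × K → K) :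
    pr (∑ k ∈ s, f k) x y P = ∑ k ∈ s, pr (f k) x y P := by
  classical
  induction s using Finset.induction_on with
  | empty => simp [pr_zero_left]
  | insert a s ha ih => rw [sum_insert ha, sum_insert ha, pr_add_left, ih]

theorem pr_single (m : ℤ × ℤ) (c x y : K) (P : K × K → K) :
    pr (Finsupp.single m c) x y P = c * P ((m.1 : K), (m.2 : K)) * (x ^ m.1 * y ^ m.2) := by
  unfold pr
  rw [Finsupp.sum_single_index (by simp)]

/-- the variable of the Laurent series -/
noncomputable abbrev tv (K : Type) [Field K] : LaurentSeries K := HahnSeries.single 1 1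

/-- the flattened polynomial: substitute `1 + t y` for `y` in `y ^ N0 * f` -/
noncomputable def flt (N0 : ℕ) (f : (ℤ × ℤ) →₀ LaurentSeries K) : (ℤ × ℤ) →₀ LaurentSeries K :=
  ∑ m ∈ f.support, ∑ j ∈ range ((m.2 + N0).toNat + 1),
    Finsupp.single (m.1, (j : ℤ)) (tv K ^ j * ((m.2 + N0).toNat.choose j : LaurentSeries K) * f m)

theorem flt_apply (N0 : ℕ) (f : (ℤ × ℤ) →₀ LaurentSeries K) (a : ℤ) (j : ℕ) :
    flt N0 f (a, (j : ℤ)) = tv K ^ j * ∑ m ∈ f.support with m.1 = a,
      ((m.2 + N0).toNat.choose j : LaurentSeries K) * f m := by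
  classical
  unfold flt
  simp only [Finsupp.coe_finsetSum, Finset.sum_apply, Finsupp.single_apply, Prod.mk.injEq,
    Nat.cast_inj]
  rw [mul_sum, sum_filter]
  apply sum_congr rfl
  intro m _
  by_cases hm : m.1 = a
  · simp only [hm, true_and, if_true]
    rw [Finset.sum_ite_eq' (range ((m.2 + N0).toNat + 1)) j]
    split_ifs with h
    · ring
    · have : (m.2 + (N0 : ℤ)).toNat < j := by
        by_contra h'
        exact h (mem_range.2 (by omega))
      rw [Nat.choose_eq_zero_of_lt this]; simp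
  · simp [hm]

theorem flt_apply_neg (N0 : ℕ) (f : (ℤ × ℤ) →₀ LaurentSeries K) (a b : ℤ) (hb : b < 0) :
    flt N0 f (a, b) = 0 := by
  classical
  unfold flt
  simp only [Finsupp.coe_finsetSum, Finset.sum_apply]
  apply sum_eq_zero
  intro m _
  apply sum_eq_zero
  intro j _
  rw [Finsupp.single_apply, if_neg]
  intro h
  have := congrArg Prod.snd h
  simp only at this
  omega

theorem LM_flt {N0 : ℕ} {f : (ℤ × ℤ) →₀ LaurentSeries K} (hN0 : ∀ m ∈ f.support, 0 ≤ m.2 + N0)
    {x z : LaurentSeries K} (h1z : 1 + tv K * z ≠ 0) {w : ℕ} (h : LM f x (1 + tv K * z) w) :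
    LM (flt N0 f) x z w := by
  apply LM_of_desc
  intro α β hαβ
  have hP := PF_comp_aff (PF_desc (K := LaurentSeries K) hαβ) 0 1 0 (N0 : LaurentSeries K) 0 1
  have h2 := h _ hP
  have h3 : (1 + tv K * z) ^ β * pr (flt N0 f) x z (fun u => u.1 ^ α * ∏ t ∈ range β, (u.2 - (t : LaurentSeries K))) =
      (tv K * z) ^ β * (1 + tv K * z) ^ (N0 : ℤ) * pr f x (1 + tv K * z)
        (fun u => (0 + 1 * u.1 + 0 * u.2, (N0 : LaurentSeries K) + 0 * u.1 + 1 * u.2).1 ^ α *
          ∏ t ∈ range β, ((0 + 1 * u.1 + 0 * u.2, (N0 : LaurentSeries K) + 0 * u.1 + 1 * u.2).2 - (t : LaurentSeries K))) := by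
    unfold flt
    rw [pr_sum_left, mul_sum]
    conv_rhs => rw [pr, Finsupp.sum, mul_sum]
    apply sum_congr rfl
    intro m hm
    rw [pr_sum_left]
    simp only [pr_single]
    obtain ⟨b, hb⟩ := Int.eq_ofNat_of_zero_le (hN0 m hm)
    have hb' : (m.2 + (N0 : ℤ)).toNat = b := by omega
    have hm2 : m.2 = (b : ℤ) - N0 := by omega
    rw [hb']
    have h4 := binom_desc (tv K * z) β b
    have h5 : ((m.2 : ℤ) : LaurentSeries K) = (b : LaurentSeries K) - N0 := by rw [hm2]; push_cast; ring
    rw [h5]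
    have h6 : (1 + tv K * z) ^ (N0 : ℤ) * (1 + tv K * z) ^ m.2 = (1 + tv K * z) ^ b := by
      rw [← zpow_add₀ h1z, hm2]
      simp
    have h7 : (1 + tv K * z) ^ β * ∑ j ∈ range (b + 1),
        (tv K ^ j * (b.choose j : LaurentSeries K) * f m) * ((m.1 : LaurentSeries K) ^ α *
          ∏ t ∈ range β, (((j : ℤ) : LaurentSeries K) - (t : LaurentSeries K))) * (x ^ m.1 * z ^ (j : ℤ)) =
        f m * (m.1 : LaurentSeries K) ^ α * x ^ m.1 * ((1 + tv K * z) ^ β *
          ∑ j ∈ range (b + 1), (b.choose j : LaurentSeries K) *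
            (∏ t ∈ range β, ((j : LaurentSeries K) - (t : LaurentSeries K))) * (tv K * z) ^ j) := by
      rw [mul_left_comm, mul_sum, mul_sum, mul_sum]
      apply sum_congr rfl
      intro j _
      rw [mul_pow, zpow_natCast]
      push_cast
      ring
    rw [h7, h4]
    have h8 : (fun u : LaurentSeries K × LaurentSeries K => (0 + 1 * u.1 + 0 * u.2, (N0 : LaurentSeries K) + 0 * u.1 + 1 * u.2))
        ((m.1 : LaurentSeries K), (b : LaurentSeries K) - N0) = ((m.1 : LaurentSeries K), (b : LaurentSeries K)) := by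
      ext1 <;> simp
    simp only [zero_add, one_mul, zero_mul, add_zero, add_sub_cancel]
    rw [← h6]
    ring
  rw [h2, mul_zero] at h3
  exact (mul_eq_zero.1 h3).resolve_left (pow_ne_zero _ h1z)

theorem coeff_tv_pow_mul (j : ℕ) (u : LaurentSeries K) (n : ℤ) :
    (tv K ^ j * u).coeff n = u.coeff (n - j) := by
  have h : tv K ^ j = HahnSeries.single (j : ℤ) (1 : K) := by
    rw [HahnSeries.single_pow]; simp
  rw [h]
  have h2 := HahnSeries.coeff_single_mul (r := (1 : K)) (x := u) (a := (n : ℤ)) (b := (j : ℤ))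
  simpa using h2

/-- the fibre of the exponents over `a`, shifted by `N0` -/
noncomputable def fib (N0 : ℕ) (f : (ℤ × ℤ) →₀ LaurentSeries K) (a : ℤ) : Finset ℕ :=
  (f.support.filter (fun m => m.1 = a)).image (fun m => (m.2 + (N0 : ℤ)).toNat)

theorem sum_fib {N0 : ℕ} {f : (ℤ × ℤ) →₀ LaurentSeries K} (hN0 : ∀ m ∈ f.support, 0 ≤ m.2 + N0)
    (a : ℤ) (φ : ℕ → LaurentSeries K) :
    ∑ m ∈ f.support with m.1 = a, φ (m.2 + N0).toNat * f m =
      ∑ b ∈ fib N0 f a, φ b * f (a, (b : ℤ) - N0) := by
  classical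
  unfold fib
  rw [sum_image]
  · apply sum_congr rfl
    intro m hm
    rw [mem_filter] at hm
    have h1 := hN0 m hm.1
    have h2 : ((a, ((m.2 + (N0 : ℤ)).toNat : ℤ) - N0) : ℤ × ℤ) = m := by
      ext
      · exact hm.2.symm
      · simp only; omega
    rw [h2]
  · intro m hm m' hm' h
    rw [mem_coe, mem_filter] at hm hm'
    have h1 := hN0 m hm.1
    have h2 := hN0 m' hm'.1
    simp only at h
    ext
    · rw [hm.2, hm'.2]
    · omega

theorem flt_ne_zero [CharZero K] {N0 : ℕ} {f : (ℤ × ℤ) →₀ LaurentSeries K} (hN0 : ∀ m ∈ f.support, 0 ≤ m.2 + N0)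
    (hf : f ≠ 0) : flt N0 f ≠ 0 := by
  intro h
  apply hf
  ext1 m0
  by_contra hm0
  have hm0' : m0 ∈ f.support := Finsupp.mem_support_iff.2 hm0
  have h1 : ∀ l < (fib N0 f m0.1).card, ∑ b ∈ fib N0 f m0.1, (b.choose l : LaurentSeries K) *
      f (m0.1, (b : ℤ) - N0) = 0 := by
    intro l _
    have h2 := flt_apply N0 f m0.1 l
    rw [h, sum_fib hN0 m0.1 (fun b => (b.choose l : LaurentSeries K))] at h2
    simp only [Finsupp.coe_zero, Pi.zero_apply] at h2
    rcases mul_eq_zero.1 h2.symm with h3 | h3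
    · exact absurd h3 (pow_ne_zero _ (by simp [tv]))
    · exact h3
  have h4 := vand h1 (m0.2 + N0).toNat (by
    unfold fib
    exact mem_image.2 ⟨m0, mem_filter.2 ⟨hm0', rfl⟩, rfl⟩)
  have h5 := hN0 m0 hm0'
  have h6 : ((m0.1, (((m0.2 + (N0 : ℤ)).toNat : ℕ) : ℤ) - N0) : ℤ × ℤ) = m0 := by
    ext
    · rfl
    · simp only; omega
  rw [h6] at h4
  exact hm0 h4

theorem flt_coeff_eq_zero [CharZero K] {N0 : ℕ} {f : (ℤ × ℤ) →₀ LaurentSeries K}
    (hN0 : ∀ m ∈ f.support, 0 ≤ m.2 + N0) {n : ℤ} (hn : ∀ m, ∀ k < n, (flt N0 f m).coeff k = 0)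
    {a : ℤ} {j : ℕ} (hj : (fib N0 f a).card ≤ j) : (flt N0 f (a, (j : ℤ))).coeff n = 0 := by
  have e : ∀ l : ℕ, ∀ k : ℤ, (flt N0 f (a, (l : ℤ))).coeff k =
      ∑ b ∈ fib N0 f a, (b.choose l : K) * (f (a, (b : ℤ) - N0)).coeff (k - l) := by
    intro l k
    rw [flt_apply, sum_fib hN0 a (fun b => (b.choose l : LaurentSeries K)), coeff_tv_pow_mul,
      HahnSeries.coeff_sum]
    apply sum_congr rfl
    intro b _
    have : ((b.choose l : ℕ) : LaurentSeries K) = cst ((b.choose l : ℕ) : K) := by
      simp [cst]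
    rw [this, coeff_cst_mul]
  have h1 : ∀ l < (fib N0 f a).card, ∑ b ∈ fib N0 f a, (b.choose l : K) *
      (f (a, (b : ℤ) - N0)).coeff (n - j) = 0 := by
    intro l hl
    have h2 := e l (n - j + l)
    rw [hn _ _ (by omega)] at h2
    rw [h2]
    apply sum_congr rfl
    intro b _
    congr 2
    ring
  have h3 := vand h1
  rw [e j n]
  apply sum_eq_zero
  intro b hb
  rw [h3 b hb, mul_zero]

end flat

/-- the flattening lemma for the covector `(1, 0)` -/
theorem Emp_flat0 {ι : Type} {w : ι → ℕ} {S S' : Set (ℤ × ℤ)}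
    (hS : ∀ (a : ℤ) (B : Finset ℤ), (∀ b ∈ B, ((a, b) : ℤ × ℤ) ∈ S) →
      ∀ k : ℕ, k < B.card → ((a, (k : ℤ)) : ℤ × ℤ) ∈ S') (h : Emp w S') : Emp w S := by
  classical
  obtain ⟨K, _, _, x, y, hx, hy, hf⟩ := h
  have hz : ∀ i, 1 + tv K * cst (y i) ≠ 0 := by
    intro i h
    have h1 := congrArg (fun u : LaurentSeries K => u.coeff 0) h
    simp only [HahnSeries.coeff_add, coeff_mul_cst, HahnSeries.coeff_zero] at h1
    have h2 : (tv K).coeff 0 = 0 := by simp [tv]
    rw [h2] at h1
    simp at h1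
  refine ⟨LaurentSeries K, inferInstance, inferInstance, fun i => cst (x i),
    fun i => 1 + tv K * cst (y i), fun i => ?_, hz, ?_⟩
  · simpa using hx i
  intro f hfS hfL
  by_contra hne
  obtain ⟨N0, hN0⟩ : ∃ N0 : ℕ, ∀ m ∈ f.support, 0 ≤ m.2 + (N0 : ℤ) := by
    refine ⟨∑ m ∈ f.support, m.2.natAbs, fun m hm => ?_⟩
    have : m.2.natAbs ≤ ∑ m ∈ f.support, m.2.natAbs :=
      single_le_sum (f := fun m : ℤ × ℤ => m.2.natAbs) (fun _ _ => Nat.zero_le _) hm
    omega
  obtain ⟨n, hn1, hn2, hn3⟩ := exists_lead (flt_ne_zero hN0 hne)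
  apply hn1
  apply hf
  · intro m hm
    have hm' : (flt N0 f m).coeff n ≠ 0 := by
      simpa using hm
    by_cases hneg : m.2 < 0
    · exfalso
      apply hm'
      have : flt N0 f (m.1, m.2) = 0 := flt_apply_neg N0 f m.1 m.2 hneg
      have e : m = (m.1, m.2) := rfl
      rw [e, this]; simp
    · obtain ⟨j, hj⟩ := Int.eq_ofNat_of_zero_le (not_lt.1 hneg)
      have e : m = (m.1, (j : ℤ)) := by ext <;> simp [hj]
      rw [e] at hm' ⊢
      have hlt : j < (fib N0 f m.1).card := by
        by_contra hge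
        exact hm' (flt_coeff_eq_zero hN0 hn2 (not_lt.1 hge))
      have hB := hS m.1 ((f.support.filter (fun m' => m'.1 = m.1)).image Prod.snd) (by
        intro b hb
        rw [mem_image] at hb
        obtain ⟨m', hm1, rfl⟩ := hb
        rw [mem_filter] at hm1
        apply hfS
        rw [← hm1.2]
        exact hm1.1) j
      apply hB
      have hcard : (fib N0 f m.1).card ≤ ((f.support.filter (fun m' => m'.1 = m.1)).image Prod.snd).card := by
        have : fib N0 f m.1 = (((f.support.filter (fun m' => m'.1 = m.1)).image Prod.snd)).image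
            (fun b : ℤ => (b + N0).toNat) := by
          unfold fib; rw [image_image]; rfl
        rw [this]
        exact card_image_le
      omega
  · intro i
    exact LM_coeff (LM_flt hN0 (hz i) (hfL i)) n

end Pool.Agent.TH176.Nag
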