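import Pool.Agent.TH176.Nag.Defs

namespace Pool.Agent.TH176.Nag

open Finset

/-- adding one does not change a negative order -/
theorem order_one_add {E : Type*} [CommRing E] [IsDomain E] {u : HahnSeries ℤ E} (hu : u ≠ 0)
    (h : u.order < 0) : 1 + u ≠ 0 ∧ (1 + u).order = u.order := by
  have h1 : u.orderTop < (1 : HahnSeries ℤ E).orderTop := by
    rw [HahnSeries.orderTop_one, ← HahnSeries.order_eq_orderTop_of_ne_zero hu]
    exact_mod_cast h
  have h2 := HahnSeries.orderTop_add_eq_right h1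
  have h3 : 1 + u ≠ 0 := by
    intro h4
    rw [h4, HahnSeries.orderTop_zero] at h2
    exact hu (HahnSeries.orderTop_eq_top.1 h2.symm)
  refine ⟨h3, ?_⟩
  rw [← HahnSeries.order_eq_orderTop_of_ne_zero hu, ← HahnSeries.order_eq_orderTop_of_ne_zero h3] at h2
  exact_mod_cast h2

/-- one step down for the orders -/
theorem order_step {E : Type*} [CommRing E] [IsDomain E] {N : ℕ} (hN : 1 ≤ N)
    {z : HahnSeries ℤ E × HahnSeries ℤ E × HahnSeries ℤ E × HahnSeries ℤ E} (hz : Rel N z)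
    (h0 : z.1 ≠ 0) (h1 : z.2.1 ≠ 0) (hlt : z.1.order < 0) :
    (stp N z).1 ≠ 0 ∧ (stp N z).1.order = N * z.1.order - z.2.1.order := by
  have h2 := (hz.stp hN).1
  have h3 : (stp N z).2.1 = z.1 := rfl
  have h4 : (stp N z).2.2.1 = z.2.1 := rfl
  rw [h3, h4] at h2
  have h5 : (z.1 ^ N).order = N * z.1.order := by rw [HahnSeries.order_pow]; simp
  have h6 : (z.1 ^ N).order < 0 := by
    rw [h5]
    have : (1 : ℤ) ≤ N := by exact_mod_cast hN
    nlinarith
  obtain ⟨h7, h8⟩ := order_one_add (pow_ne_zero N h0) h6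
  have h9 : (stp N z).1 ≠ 0 := by
    intro h
    rw [h, zero_mul] at h2
    exact h7 h2.symm
  refine ⟨h9, ?_⟩
  have h10 : ((stp N z).1 * z.2.1).order = (1 + z.1 ^ N).order := by rw [h2]
  rw [HahnSeries.order_mul h9 h1, h8, h5] at h10
  linarith

end Pool.Agent.TH176.Nag
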