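import Pool.Agent.TH176.Nag.Flat
import Pool.Agent.TH176.Nag.Order

/-! The staircase: degrees, sublattices and the degeneration to the charts. -/

namespace Pool.Agent.TH176.Nag

open Finset

section gs
variable {N : ℤ}

theorem gs_two (k : ℕ) : gs N (k + 2) = N * gs N (k + 1) - gs N k := rfl

theorem gs_pos_mono (hN : 3 ≤ N) (k : ℕ) : 1 ≤ gs N k ∧ gs N k ≤ gs N (k + 1) := by
  induction k with
  | zero => exact ⟨le_refl _, le_refl _⟩
  | succ k ih =>
    obtain ⟨h1, h2⟩ := ih
    refine ⟨by linarith, ?_⟩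
    rw [gs_two]
    nlinarith

theorem gs_pos (hN : 3 ≤ N) (k : ℕ) : 0 < gs N k := by
  have := (gs_pos_mono hN k).1; omega

theorem gs_markov (k : ℕ) : gs N k ^ 2 + gs N (k + 1) ^ 2 + (N - 2) = N * gs N k * gs N (k + 1) := by
  induction k with
  | zero => simp only [gs]; ring
  | succ k ih =>
    rw [gs_two]
    linear_combination ih

theorem gs_prod (k : ℕ) : gs N k * gs N (k + 2) = gs N (k + 1) ^ 2 + (N - 2) := by
  rw [gs_two]
  linear_combination -gs_markov (N := N) k

theorem gs_mod (k : ℕ) : (N - 2) ∣ gs N k - 1 ∧ (N - 2) ∣ gs N (k + 1) - 1 := by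
  induction k with
  | zero => simp [gs]
  | succ k ih =>
    refine ⟨ih.2, ?_⟩
    rw [gs_two]
    obtain ⟨⟨a, ha⟩, ⟨b, hb⟩⟩ := ih
    refine ⟨N * b + 1 - a, ?_⟩
    linear_combination N * hb - ha

end gs

section sub
variable {ι : Type} {w : ι → ℕ}

theorem LM_linear {K K' : Type} [Field K] [Field K'] [Algebra K K'] {g : (ℤ × ℤ) →₀ K'} {x y : K} {w : ℕ}
    (h : LM g (algebraMap K K' x) (algebraMap K K' y) w) (φ : K' →ₗ[K] K) :
    LM (g.mapRange φ (map_zero φ)) x y w := by
  apply LM_of_mono
  intro a b hab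
  have h1 := h _ (mem_PF_mono hab)
  unfold pr at h1 ⊢
  rw [Finsupp.sum_mapRange_index (by simp)]
  have h2 := congrArg φ h1
  rw [map_zero] at h2
  rw [← h2]
  unfold Finsupp.sum
  rw [map_sum]
  apply sum_congr rfl
  intro m _
  have e : (g m * (((m.1 : ℤ) : K') ^ a * ((m.2 : ℤ) : K') ^ b) *
      (algebraMap K K' x ^ m.1 * algebraMap K K' y ^ m.2)) = (((m.1 : K) ^ a * (m.2 : K) ^ b) *
      (x ^ m.1 * y ^ m.2)) • g m := by
    rw [Algebra.smul_def]
    simp only [map_mul, map_pow, map_intCast, map_zpow₀]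
    ring
  beta_reduce
  rw [e, map_smul, smul_eq_mul]
  ring

/-- the emptiness may be moved to an algebraically closed field -/
theorem Emp.algClosed {S : Set (ℤ × ℤ)} (h : Emp w S) :
    ∃ (K : Type) (_ : Field K) (_ : CharZero K) (_ : IsAlgClosed K) (x y : ι → K), (∀ i, x i ≠ 0) ∧
      (∀ i, y i ≠ 0) ∧
      ∀ f : (ℤ × ℤ) →₀ K, (↑f.support : Set (ℤ × ℤ)) ⊆ S → (∀ i, LM f (x i) (y i) (w i)) → f = 0 := by
  obtain ⟨K, _, _, x, y, hx, hy, hf⟩ := h
  refine ⟨AlgebraicClosure K, inferInstance, inferInstance, inferInstance,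
    fun i => algebraMap K _ (x i), fun i => algebraMap K _ (y i), fun i => by simpa using hx i,
    fun i => by simpa using hy i, ?_⟩
  intro f hfS hfL
  ext1 m
  by_contra hm
  have h1 : ¬ ∀ φ : Module.Dual K (AlgebraicClosure K), φ (f m) = 0 := by
    rw [Module.forall_dual_apply_eq_zero_iff]
    simpa using hm
  push Not at h1
  obtain ⟨φ, hφ⟩ := h1
  have h2 : f.mapRange φ (map_zero φ) = 0 := by
    apply hf
    · intro m' hm'
      apply hfS
      have := Finsupp.support_mapRange hm'
      exact this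
    · intro i
      exact LM_linear (hfL i) φ
  apply hφ
  have := DFunLike.congr_fun h2 m
  simpa using this

/-- the emptiness for exponents in a sublattice -/
theorem Emp.sub {S : Set (ℤ × ℤ)} (h : Emp w S) (p q r s u v : ℤ) (hdet : 0 < p * s - q * r) :
    Emp w {m | ∃ n ∈ S, m = (p * n.1 + q * n.2 + u, r * n.1 + s * n.2 + v)} := by
  obtain ⟨K, _, _, _, X, Y, hX, hY, hf⟩ := h.algClosed
  obtain ⟨D, hD⟩ : ∃ D : ℕ, (D : ℤ) = p * s - q * r := ⟨(p * s - q * r).toNat, by omega⟩
  have hD0 : 0 < D := by omega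
  have hr : ∀ z : K, ∃ z' : K, z' ^ D = z := fun z => IsAlgClosed.exists_pow_nat_eq z hD0
  choose rt hrt using hr
  have hrt0 : ∀ z, z ≠ 0 → rt z ≠ 0 := by
    intro z hz h
    apply hz
    rw [← hrt z, h, zero_pow (by omega)]
  let x : ι → K := fun i => rt (X i) ^ s * rt (Y i) ^ (-r)
  let y : ι → K := fun i => rt (X i) ^ (-q) * rt (Y i) ^ p
  have hx : ∀ i, x i ≠ 0 := fun i =>
    mul_ne_zero (zpow_ne_zero _ (hrt0 _ (hX i))) (zpow_ne_zero _ (hrt0 _ (hY i)))
  have hy : ∀ i, y i ≠ 0 := fun i =>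
    mul_ne_zero (zpow_ne_zero _ (hrt0 _ (hX i))) (zpow_ne_zero _ (hrt0 _ (hY i)))
  have e1 : ∀ i, x i ^ p * y i ^ r = X i := by
    intro i
    simp only [x, y]
    rw [mul_zpow, mul_zpow, ← zpow_mul, ← zpow_mul, ← zpow_mul, ← zpow_mul]
    have hX' := hrt0 _ (hX i)
    have hY' := hrt0 _ (hY i)
    calc rt (X i) ^ (s * p) * rt (Y i) ^ (-r * p) * (rt (X i) ^ (-q * r) * rt (Y i) ^ (p * r))
        = (rt (X i) ^ (s * p) * rt (X i) ^ (-q * r)) * (rt (Y i) ^ (-r * p) * rt (Y i) ^ (p * r)) := by ring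
      _ = rt (X i) ^ (D : ℤ) * rt (Y i) ^ (0 : ℤ) := by
          rw [← zpow_add₀ hX', ← zpow_add₀ hY', hD]
          congr 2 <;> ring
      _ = X i := by rw [zpow_natCast, hrt]; simp
  have e2 : ∀ i, x i ^ q * y i ^ s = Y i := by
    intro i
    simp only [x, y]
    rw [mul_zpow, mul_zpow, ← zpow_mul, ← zpow_mul, ← zpow_mul, ← zpow_mul]
    have hX' := hrt0 _ (hX i)
    have hY' := hrt0 _ (hY i)
    calc rt (X i) ^ (s * q) * rt (Y i) ^ (-r * q) * (rt (X i) ^ (-q * s) * rt (Y i) ^ (p * s))
        = (rt (X i) ^ (s * q) * rt (X i) ^ (-q * s)) * (rt (Y i) ^ (-r * q) * rt (Y i) ^ (p * s)) := by ring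
      _ = rt (X i) ^ (0 : ℤ) * rt (Y i) ^ (D : ℤ) := by
          rw [← zpow_add₀ hX', ← zpow_add₀ hY', hD]
          congr 2 <;> ring
      _ = Y i := by rw [zpow_natCast, hrt]; simp
  clear_value x y
  refine ⟨K, inferInstance, inferInstance, x, y, hx, hy, ?_⟩
  intro f hfS hfL
  classical
  -- the inverse relabelling
  have hch : ∀ m ∈ f.support, ∃ n ∈ S, m = (p * n.1 + q * n.2 + u, r * n.1 + s * n.2 + v) :=
    fun m hm => hfS hm
  let φ : ℤ × ℤ → ℤ × ℤ := fun m => if hm : m ∈ f.support then (hch m hm).choose else 0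
  have hφ : ∀ m ∈ f.support, φ m ∈ S ∧ m = (p * (φ m).1 + q * (φ m).2 + u, r * (φ m).1 + s * (φ m).2 + v) := by
    intro m hm
    have := (hch m hm).choose_spec
    simp only [φ, dif_pos hm]
    exact this
  have hinj : Set.InjOn φ f.support := by
    intro m hm m' hm' he
    rw [(hφ m hm).2, (hφ m' hm').2, he]
  have h1 : f.mapDomain φ = 0 := by
    apply hf
    · intro m hm
      have := Finsupp.mapDomain_support hm
      simp only [Finset.mem_image] at this
      obtain ⟨m', hm', rfl⟩ := this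
      exact (hφ m' hm').1
    · intro i
      have hDK : ((p : K) * s - q * r) ≠ 0 := by
        have : ((p : K) * s - q * r) = (D : K) := by
          have := congrArg (Int.cast : ℤ → K) hD
          push_cast at this
          exact this.symm
        rw [this]
        exact_mod_cast hD0.ne'
      refine (hfL i).relabel φ rfl (x i ^ (-u) * y i ^ (-v)) ?_
        (-((s : K) * u - q * v) / ((p : K) * s - q * r)) ((s : K) / ((p : K) * s - q * r))
        (-(q : K) / ((p : K) * s - q * r))
        (-((p : K) * v - r * u) / ((p : K) * s - q * r)) (-(r : K) / ((p : K) * s - q * r))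
        ((p : K) / ((p : K) * s - q * r)) ?_ ?_
      · intro m hm
        have hm2 := (hφ m hm).2
        have a1 : m.1 = p * (φ m).1 + q * (φ m).2 + u := congrArg Prod.fst hm2
        have a2 : m.2 = r * (φ m).1 + s * (φ m).2 + v := congrArg Prod.snd hm2
        rw [← e1 i, ← e2 i, mul_zpow, mul_zpow, ← zpow_mul, ← zpow_mul, ← zpow_mul, ← zpow_mul]
        calc x i ^ (p * (φ m).1) * y i ^ (r * (φ m).1) * (x i ^ (q * (φ m).2) * y i ^ (s * (φ m).2))
            = (x i ^ (p * (φ m).1) * x i ^ (q * (φ m).2)) * (y i ^ (r * (φ m).1) * y i ^ (s * (φ m).2)) := by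
              ring
          _ = x i ^ (-u + m.1) * y i ^ (-v + m.2) := by
              rw [← zpow_add₀ (hx i), ← zpow_add₀ (hy i)]
              congr 2
              · rw [a1]; ring
              · rw [a2]; ring
          _ = _ := by rw [zpow_add₀ (hx i), zpow_add₀ (hy i)]; ring
      · intro m hm
        have hm2 := (hφ m hm).2
        have a1 : (m.1 : K) = p * (φ m).1 + q * (φ m).2 + u := by
          have := congrArg (Int.cast : ℤ → K) (congrArg Prod.fst hm2)
          push_cast at this; exact this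
        have a2 : (m.2 : K) = r * (φ m).1 + s * (φ m).2 + v := by
          have := congrArg (Int.cast : ℤ → K) (congrArg Prod.snd hm2)
          push_cast at this; exact this
        have e : -((s : K) * u - q * v) / ((p : K) * s - q * r) + (s : K) / ((p : K) * s - q * r) * (m.1 : K) +
            -(q : K) / ((p : K) * s - q * r) * (m.2 : K) =
            (-((s : K) * u - q * v) + s * m.1 - q * m.2) / ((p : K) * s - q * r) := by ring
        rw [e, eq_div_iff hDK, a1, a2]
        ring
      · intro m hm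
        have hm2 := (hφ m hm).2
        have a1 : (m.1 : K) = p * (φ m).1 + q * (φ m).2 + u := by
          have := congrArg (Int.cast : ℤ → K) (congrArg Prod.fst hm2)
          push_cast at this; exact this
        have a2 : (m.2 : K) = r * (φ m).1 + s * (φ m).2 + v := by
          have := congrArg (Int.cast : ℤ → K) (congrArg Prod.snd hm2)
          push_cast at this; exact this
        have e : -((p : K) * v - r * u) / ((p : K) * s - q * r) + -(r : K) / ((p : K) * s - q * r) * (m.1 : K) +
            (p : K) / ((p : K) * s - q * r) * (m.2 : K) =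
            (-((p : K) * v - r * u) - r * m.1 + p * m.2) / ((p : K) * s - q * r) := by ring
        rw [e, eq_div_iff hDK, a1, a2]
        ring
  -- back to f
  by_contra hne
  obtain ⟨m, hm⟩ := Finsupp.support_nonempty_iff.2 hne
  have h2 : f.mapDomain φ (φ m) = f m := by
    rw [Finsupp.mapDomain, Finsupp.sum, Finsupp.coe_finsetSum, Finset.sum_apply,
      Finset.sum_eq_single m]
    · simp
    · intro m' hm' hne'
      rw [Finsupp.single_apply, if_neg]
      intro he
      exact hne' (hinj hm' hm he)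
    · intro h; exact absurd hm h
  rw [h1] at h2
  exact (Finsupp.mem_support_iff.1 hm) (by rw [← h2]; simp)

end sub

end Pool.Agent.TH176.Nag
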